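import Mathlib
import Pool.Agent.Lib.MP_cfafa5_al.Defs

/-!
The topology of the Ziegler spectrum. Modules are left modules; right `R`-modules are left modules
over the opposite ring.
-/

set_option autoImplicit false

universe v

namespace Pool.Agent.Lib.MP_cfafa5_al

/-- A pp condition in one free variable `x` for left `S`-modules: there are `y 0, …, y (m-1)` with
`a i • x + ∑ j, b i j • y j = 0` for all `i < k`. -/
structure PP (S : Type) where
  m : ℕ
  k : ℕ
  a : Fin k → S
  b : Fin k → Fin m → S

/-- The set `φ(M)` of solutions of the pp condition `φ` in the module `M`. -/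
def PP.ev {S : Type} [Ring S] (φ : PP S) (M : Type v) [AddCommGroup M] [Module S M] : Set M :=
  {x | ∃ y : Fin φ.m → M, ∀ i, φ.a i • x + ∑ j, φ.b i j • y j = 0}

/-- The set `(φ/ψ)` of points `N` of the Ziegler spectrum with `φ(N)` not contained in `ψ(N)`. -/
def basic {S : Type} [Ring S] (φ ψ : PP S) : Set (Zg.{v} S) :=
  {p | ∃ N : PInj.{v} S, Quot.mk _ N = p ∧ ¬ φ.ev N.1 ⊆ ψ.ev N.1}

/-- The Ziegler topology: generated by the sets `(φ/ψ)`. -/
instance zgTop (S : Type) [Ring S] : TopologicalSpace (Zg.{v} S) :=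
  TopologicalSpace.generateFrom {U | ∃ φ ψ : PP S, U = basic φ ψ}

/-- The elementary dual `Dφ` of a pp condition `φ` for right `R`-modules: if `φ` says that there
are `y j` with `x (a i) + ∑ j, (y j) (b i j) = 0` for all `i`, then `Dφ` is the pp condition for
left `R`-modules saying that there are `z i` with `x + ∑ i, a i • z i = 0` and
`∑ i, b i j • z i = 0` for all `j`. -/
def PP.dual {R : Type} [Ring R] (φ : PP Rᵐᵒᵖ) : PP R where
  m := φ.k
  k := φ.m + 1
  a := Fin.cons 1 fun _ => 0
  b := Fin.cons (fun i => (φ.a i).unop) fun j i => (φ.b i j).unop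

end Pool.Agent.Lib.MP_cfafa5_al
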