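import Mathlib
import Pool.Agent.Lib.MP_cfafa5_al.Ctb.Top

/-!
pp conditions in one and two variables and their closure properties.
-/

set_option autoImplicit false

universe v

namespace Pool.Agent.Lib.MP_cfafa5_al.Ctb

open Pool.Agent.Lib.MP_cfafa5_al

/-- pp conditions in two free variables. -/
structure PP2 (S : Type) where
  m : ℕ
  k : ℕ
  a : Fin k → S
  a' : Fin k → S
  b : Fin k → Fin m → S

variable {S : Type} [Ring S]

instance [Countable S] : Countable (PP S) :=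
  Function.Injective.countable (β := Σ m k : ℕ, (Fin k → S) × (Fin k → Fin m → S))
    (f := fun φ => ⟨φ.m, φ.k, φ.a, φ.b⟩) (by
      rintro ⟨m, k, a, b⟩ ⟨m', k', a', b'⟩ h
      cases h
      rfl)

instance [Countable S] : Countable (PP2 S) :=
  Function.Injective.countable (β := Σ m k : ℕ, (Fin k → S) × (Fin k → S) × (Fin k → Fin m → S))
    (f := fun φ => ⟨φ.m, φ.k, φ.a, φ.a', φ.b⟩) (by
      rintro ⟨m, k, a, c, b⟩ ⟨m', k', a', c', b'⟩ h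
      cases h
      rfl)

def s2 (ρ : PP2 S) (M : Type v) [AddCommGroup M] [Module S M] : AddSubgroup (M × M) where
  carrier := {p | ∃ y : Fin ρ.m → M, ∀ i, ρ.a i • p.1 + ρ.a' i • p.2 + ∑ j, ρ.b i j • y j = 0}
  zero_mem' := ⟨0, by simp⟩
  add_mem' := by
    rintro p q ⟨y, hy⟩ ⟨z, hz⟩
    refine ⟨y + z, fun i => ?_⟩
    have h := congrArg₂ (· + ·) (hy i) (hz i)
    simp only [Prod.fst_add, Prod.snd_add, Pi.add_apply, smul_add, Finset.sum_add_distrib,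
      add_zero] at h ⊢
    rw [← h]
    abel
  neg_mem' := by
    rintro p ⟨y, hy⟩
    refine ⟨-y, fun i => ?_⟩
    have h := congrArg (fun t => -t) (hy i)
    simp only [Prod.fst_neg, Prod.snd_neg, Pi.neg_apply, smul_neg, Finset.sum_neg_distrib,
      neg_zero] at h ⊢
    rw [← h]
    abel

def two (φ : PP S) : PP2 S := ⟨φ.m, φ.k, φ.a, fun _ => 0, φ.b⟩

def one (ρ : PP2 S) : PP S := ⟨ρ.m, ρ.k, ρ.a, ρ.b⟩

def swap (ρ : PP2 S) : PP2 S := ⟨ρ.m, ρ.k, ρ.a', ρ.a, ρ.b⟩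

def s1 (φ : PP S) (M : Type v) [AddCommGroup M] [Module S M] : AddSubgroup M :=
  (s2 (two φ) M).comap (AddMonoidHom.inl M M)

section mem

variable {M N : Type v} [AddCommGroup M] [Module S M] [AddCommGroup N] [Module S N]

lemma mem_s2 {ρ : PP2 S} {x y : M} : (x, y) ∈ s2 ρ M ↔
    ∃ z : Fin ρ.m → M, ∀ i, ρ.a i • x + ρ.a' i • y + ∑ j, ρ.b i j • z j = 0 := Iff.rfl

lemma mem_s1 {φ : PP S} {x : M} : x ∈ s1 φ M ↔
    ∃ z : Fin φ.m → M, ∀ i, φ.a i • x + ∑ j, φ.b i j • z j = 0 := by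
  simp [s1, mem_s2, two]

lemma mem_s1_ev {φ : PP S} {x : M} : x ∈ s1 φ M ↔ x ∈ φ.ev M := mem_s1

lemma mem_two {φ : PP S} {x y : M} : (x, y) ∈ s2 (two φ) M ↔ x ∈ s1 φ M := by
  simp [mem_s1, mem_s2, two]

lemma mem_one {ρ : PP2 S} {x : M} : x ∈ s1 (one ρ) M ↔ (x, (0 : M)) ∈ s2 ρ M := by
  simp [mem_s1, mem_s2, one]

lemma mem_swap {ρ : PP2 S} {x y : M} : (x, y) ∈ s2 (swap ρ) M ↔ (y, x) ∈ s2 ρ M := by
  simp [mem_s2, swap, add_comm]

lemma map_s2 {ρ : PP2 S} (f : M →ₗ[S] N) {x y : M} (h : (x, y) ∈ s2 ρ M) :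
    (f x, f y) ∈ s2 ρ N := by
  obtain ⟨z, hz⟩ := h
  refine ⟨fun j => f (z j), fun i => ?_⟩
  simpa [map_sum] using congrArg f (hz i)

lemma map_s1 {φ : PP S} (f : M →ₗ[S] N) {x : M} (h : x ∈ s1 φ M) : f x ∈ s1 φ N := by
  rw [← mem_two (y := f 0)]
  exact map_s2 f (mem_two.2 h)

lemma pi_s2 {ρ : PP2 S} {I : Type*} {M : Type*} [AddCommGroup M] [Module S M] {u w : I → M} :
    (u, w) ∈ s2 ρ (I → M) ↔ ∀ i, (u i, w i) ∈ s2 ρ M := by
  constructor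
  · rintro ⟨z, hz⟩ i
    exact ⟨fun j => z j i, fun k => by simpa [Finset.sum_apply] using congrFun (hz k) i⟩
  · intro h
    choose z hz using h
    exact ⟨fun j i => z i j, fun k => funext fun i => by simpa [Finset.sum_apply] using hz i k⟩

lemma pi_s1 {φ : PP S} {I : Type*} {M : Type*} [AddCommGroup M] [Module S M] {u : I → M} :
    u ∈ s1 φ (I → M) ↔ ∀ i, u i ∈ s1 φ M := by
  rw [← mem_two (y := 0), pi_s2]
  simp [mem_two]

end mem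

lemma exists_pp2 {κ μ : Type*} [Fintype κ] [Fintype μ] (a a' : κ → S) (b : κ → μ → S) :
    ∃ ρ : PP2 S, ∀ (M : Type v) [AddCommGroup M] [Module S M] (x y : M), (x, y) ∈ s2 ρ M ↔
      ∃ z : μ → M, ∀ i, a i • x + a' i • y + ∑ j, b i j • z j = 0 := by
  let e := (Fintype.equivFin κ).symm
  let f := (Fintype.equivFin μ).symm
  refine ⟨⟨_, _, fun i => a (e i), fun i => a' (e i), fun i j => b (e i) (f j)⟩,
    fun M _ _ x y => ⟨?_, ?_⟩⟩
  · rintro ⟨z, hz⟩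
    refine ⟨fun j => z (f.symm j), fun i => ?_⟩
    obtain ⟨i, rfl⟩ := e.surjective i
    rw [← hz i, ← f.sum_comp]
    simp
  · rintro ⟨z, hz⟩
    refine ⟨fun j => z (f j), fun i => ?_⟩
    rw [← hz (e i), ← f.sum_comp]

lemma ex_inf2 (ρ σ : PP2 S) : ∃ τ : PP2 S, ∀ (M : Type v) [AddCommGroup M] [Module S M],
    s2 τ M = s2 ρ M ⊓ s2 σ M := by
  obtain ⟨τ, hτ⟩ := exists_pp2.{v} (Sum.elim ρ.a σ.a) (Sum.elim ρ.a' σ.a')
    (Sum.elim (fun i => Sum.elim (ρ.b i) 0) fun i => Sum.elim 0 (σ.b i))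
  refine ⟨τ, fun M _ _ => AddSubgroup.ext fun ⟨x, y⟩ => ?_⟩
  rw [hτ, AddSubgroup.mem_inf, mem_s2, mem_s2]
  constructor
  · rintro ⟨z, hz⟩
    exact ⟨⟨fun j => z (.inl j), fun i => by simpa using hz (.inl i)⟩,
      ⟨fun j => z (.inr j), fun i => by simpa using hz (.inr i)⟩⟩
  · rintro ⟨⟨z, hz⟩, w, hw⟩
    refine ⟨Sum.elim z w, ?_⟩
    rintro (i | i)
    · simpa using hz i
    · simpa using hw i

lemma ex_sup2 (ρ σ : PP2 S) : ∃ τ : PP2 S, ∀ (M : Type v) [AddCommGroup M] [Module S M],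
    s2 τ M = s2 ρ M ⊔ s2 σ M := by
  obtain ⟨τ, hτ⟩ := exists_pp2.{v} (μ := (Fin ρ.m ⊕ Fin σ.m) ⊕ Bool)
    (Sum.elim 0 σ.a) (Sum.elim 0 σ.a')
    (Sum.elim (fun i => Sum.elim (Sum.elim (ρ.b i) 0) fun c => cond c (ρ.a i) (ρ.a' i))
      fun i => Sum.elim (Sum.elim 0 (σ.b i)) fun c => cond c (-σ.a i) (-σ.a' i))
  refine ⟨τ, fun M _ _ => AddSubgroup.ext fun ⟨x, y⟩ => ?_⟩
  rw [hτ, AddSubgroup.mem_sup]
  constructor
  · rintro ⟨z, hz⟩
    refine ⟨(z (.inr true), z (.inr false)), ⟨fun j => z (.inl (.inl j)), fun i => ?_⟩,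
      (x - z (.inr true), y - z (.inr false)), ⟨fun j => z (.inl (.inr j)), fun i => ?_⟩, by simp⟩
    · have h := hz (.inl i)
      simp at h
      rw [← h]
      abel
    · have h := hz (.inr i)
      simp at h
      simp only [smul_sub]
      rw [← h]
      abel
  · rintro ⟨⟨x1, y1⟩, ⟨z, hz⟩, ⟨x2, y2⟩, ⟨w, hw⟩, h⟩
    obtain ⟨rfl, rfl⟩ := Prod.mk.inj h
    refine ⟨Sum.elim (Sum.elim z w) fun c => cond c x1 y1, ?_⟩
    rintro (i | i)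
    · simp
      rw [← hz i]
      abel
    · simp
      rw [← hw i]
      abel

lemma ex_fst (ρ : PP2 S) : ∃ φ : PP S, ∀ (M : Type v) [AddCommGroup M] [Module S M] (x : M),
    x ∈ s1 φ M ↔ ∃ y, (x, y) ∈ s2 ρ M := by
  obtain ⟨τ, hτ⟩ := exists_pp2.{v} (μ := Option (Fin ρ.m)) ρ.a 0
    (fun i j => j.elim (ρ.a' i) (ρ.b i))
  refine ⟨one τ, fun M _ _ x => ?_⟩
  rw [mem_one, hτ]
  constructor
  · rintro ⟨z, hz⟩
    exact ⟨z none, fun j => z (some j), fun i => by simpa [add_assoc] using hz i⟩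
  · rintro ⟨y, z, hz⟩
    exact ⟨fun j => j.elim y z, fun i => by simpa [add_assoc] using hz i⟩

lemma ex_prod (φ ψ : PP S) : ∃ τ : PP2 S, ∀ (M : Type v) [AddCommGroup M] [Module S M] (x y : M),
    (x, y) ∈ s2 τ M ↔ x ∈ s1 φ M ∧ y ∈ s1 ψ M := by
  obtain ⟨τ, hτ⟩ := ex_inf2.{v} (two φ) (swap (two ψ))
  exact ⟨τ, fun M _ _ x y => by rw [hτ, AddSubgroup.mem_inf, mem_swap, mem_two, mem_two]⟩

lemma ex_inf1 (φ ψ : PP S) : ∃ τ : PP S, ∀ (M : Type v) [AddCommGroup M] [Module S M],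
    s1 τ M = s1 φ M ⊓ s1 ψ M := by
  obtain ⟨τ, hτ⟩ := ex_inf2.{v} (two φ) (two ψ)
  exact ⟨one τ, fun M _ _ => AddSubgroup.ext fun x => by
    rw [mem_one, hτ, AddSubgroup.mem_inf, AddSubgroup.mem_inf, mem_two, mem_two]⟩

lemma ex_sup1 (φ ψ : PP S) : ∃ τ : PP S, ∀ (M : Type v) [AddCommGroup M] [Module S M],
    s1 τ M = s1 φ M ⊔ s1 ψ M := by
  obtain ⟨τ, hτ⟩ := ex_sup2.{v} (two φ) (two ψ)
  refine ⟨one τ, fun M _ _ => AddSubgroup.ext fun x => ?_⟩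
  rw [mem_one, hτ, AddSubgroup.mem_sup, AddSubgroup.mem_sup]
  constructor
  · rintro ⟨⟨x1, y1⟩, h1, ⟨x2, y2⟩, h2, h⟩
    exact ⟨x1, mem_two.1 h1, x2, mem_two.1 h2, (Prod.mk.inj h).1⟩
  · rintro ⟨x1, h1, x2, h2, rfl⟩
    exact ⟨(x1, 0), mem_two.2 h1, (x2, 0), mem_two.2 h2, by simp⟩

def botF (S : Type) [Ring S] : PP S := ⟨0, 1, fun _ => 1, fun _ _ => 0⟩

def topF (S : Type) [Ring S] : PP S := ⟨0, 0, fun _ => 0, fun _ _ => 0⟩

lemma mem_botF {M : Type v} [AddCommGroup M] [Module S M] {x : M} :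
    x ∈ s1 (botF S) M ↔ x = 0 := by
  simp [mem_s1, botF]

lemma mem_topF {M : Type v} [AddCommGroup M] [Module S M] (x : M) : x ∈ s1 (topF S) M := by
  simp [mem_s1, topF]

/-- Definable subgroups of `M`. -/
def D1 (S : Type) [Ring S] {M : Type v} [AddCommGroup M] [Module S M] (U : AddSubgroup M) : Prop :=
  ∃ φ : PP S, s1 φ M = U

/-- Definable subgroups of `M × M`. -/
def D2 (S : Type) [Ring S] {M : Type v} [AddCommGroup M] [Module S M]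
    (U : AddSubgroup (M × M)) : Prop :=
  ∃ ρ : PP2 S, s2 ρ M = U

section D

variable {M : Type v} [AddCommGroup M] [Module S M]

lemma D1.inf {U V : AddSubgroup M} (hU : D1 S U) (hV : D1 S V) : D1 S (U ⊓ V) := by
  obtain ⟨φ, rfl⟩ := hU
  obtain ⟨ψ, rfl⟩ := hV
  exact (ex_inf1.{v} φ ψ).imp fun _ h => h M

lemma D1.sup {U V : AddSubgroup M} (hU : D1 S U) (hV : D1 S V) : D1 S (U ⊔ V) := by
  obtain ⟨φ, rfl⟩ := hU
  obtain ⟨ψ, rfl⟩ := hV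
  exact (ex_sup1.{v} φ ψ).imp fun _ h => h M

lemma D1.top : D1 S (⊤ : AddSubgroup M) := ⟨topF S, eq_top_iff.2 fun x _ => mem_topF x⟩

lemma D1.bot : D1 S (⊥ : AddSubgroup M) := ⟨botF S, eq_bot_iff.2 fun _ h => mem_botF.1 h⟩

lemma D2.inf {U V : AddSubgroup (M × M)} (hU : D2 S U) (hV : D2 S V) : D2 S (U ⊓ V) := by
  obtain ⟨φ, rfl⟩ := hU
  obtain ⟨ψ, rfl⟩ := hV
  exact (ex_inf2.{v} φ ψ).imp fun _ h => h M

lemma D2.sup {U V : AddSubgroup (M × M)} (hU : D2 S U) (hV : D2 S V) : D2 S (U ⊔ V) := by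
  obtain ⟨φ, rfl⟩ := hU
  obtain ⟨ψ, rfl⟩ := hV
  exact (ex_sup2.{v} φ ψ).imp fun _ h => h M

lemma D2.prod {U V : AddSubgroup M} (hU : D1 S U) (hV : D1 S V) : D2 S (U.prod V) := by
  obtain ⟨φ, rfl⟩ := hU
  obtain ⟨ψ, rfl⟩ := hV
  exact (ex_prod.{v} φ ψ).imp fun _ h => AddSubgroup.ext fun ⟨x, y⟩ => h M x y

/-- First projection of a subgroup of `M × M`. -/
def pr1 (R : AddSubgroup (M × M)) : AddSubgroup M := R.map (AddMonoidHom.fst M M)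

/-- Second projection. -/
def pr2 (R : AddSubgroup (M × M)) : AddSubgroup M := R.map (AddMonoidHom.snd M M)

/-- The elements `x` with `(x, 0)` in `R`. -/
def in1 (R : AddSubgroup (M × M)) : AddSubgroup M := R.comap (AddMonoidHom.inl M M)

/-- The elements `y` with `(0, y)` in `R`. -/
def in2 (R : AddSubgroup (M × M)) : AddSubgroup M := R.comap (AddMonoidHom.inr M M)

lemma mem_pr1 {R : AddSubgroup (M × M)} {x : M} : x ∈ pr1 R ↔ ∃ y, (x, y) ∈ R := by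
  simp [pr1]

lemma mem_pr2 {R : AddSubgroup (M × M)} {y : M} : y ∈ pr2 R ↔ ∃ x, (x, y) ∈ R := by
  simp [pr2]

lemma mem_in1 {R : AddSubgroup (M × M)} {x : M} : x ∈ in1 R ↔ (x, (0 : M)) ∈ R := Iff.rfl

lemma mem_in2 {R : AddSubgroup (M × M)} {y : M} : y ∈ in2 R ↔ ((0 : M), y) ∈ R := Iff.rfl

lemma D2.pr1 {R : AddSubgroup (M × M)} (h : D2 S R) : D1 S (pr1 R) := by
  obtain ⟨ρ, rfl⟩ := h
  exact (ex_fst.{v} ρ).imp fun _ h => AddSubgroup.ext fun x => (h M x).trans mem_pr1.symm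

lemma D2.pr2 {R : AddSubgroup (M × M)} (h : D2 S R) : D1 S (pr2 R) := by
  obtain ⟨ρ, rfl⟩ := h
  exact (ex_fst.{v} (swap ρ)).imp fun _ h => AddSubgroup.ext fun x => by
    simp only [h M x, mem_pr2, mem_swap]

lemma D2.in1 {R : AddSubgroup (M × M)} (h : D2 S R) : D1 S (in1 R) := by
  obtain ⟨ρ, rfl⟩ := h
  exact ⟨one ρ, AddSubgroup.ext fun x => mem_one⟩

lemma D2.in2 {R : AddSubgroup (M × M)} (h : D2 S R) : D1 S (in2 R) := by
  obtain ⟨ρ, rfl⟩ := h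
  exact ⟨one (swap ρ), AddSubgroup.ext fun x => mem_one.trans mem_swap⟩

end D

end Pool.Agent.Lib.MP_cfafa5_al.Ctb
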