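import Mathlib
import Pool.Agent.Lib.MP_cfafa5_al.Ctb.Form

/-!
Pure-injectivity as the existence of linear limits along filters.
-/

set_option autoImplicit false

universe v

namespace Pool.Agent.Lib.MP_cfafa5_al.Ctb

open Pool.Agent.Lib.MP_cfafa5_al Filter

variable {S : Type} [Ring S]

def IsLim {I : Type*} {Q : Type*} [AddCommGroup Q] [Module S Q] (l : Filter I)
    (r : (I → Q) →ₗ[S] Q) : Prop :=
  ∀ u c, (∀ᶠ i in l, u i = c) → r u = c

def HasLim (S : Type) [Ring S] (Q : Type v) [AddCommGroup Q] [Module S Q] : Prop :=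
  ∀ (I : Type v) (l : Filter I), l.NeBot → ∃ r : (I → Q) →ₗ[S] Q, IsLim l r

lemma exists_filter {I : Type*} [Nonempty I] (ρ : I → I → Prop)
    (ht : ∀ i j k, ρ i j → ρ j k → ρ i k) (hd : ∀ i j, ∃ k, ρ i k ∧ ρ j k) :
    ∃ l : Filter I, l.NeBot ∧ ∀ i, ∀ᶠ j in l, ρ i j := by
  refine ⟨⨅ i, 𝓟 {j | ρ i j}, iInf_neBot_of_directed (fun i j => ?_) fun i => ?_, fun i =>
    mem_iInf_of_mem i (mem_principal_self _)⟩
  · obtain ⟨k, h1, h2⟩ := hd i j
    exact ⟨k, principal_mono.2 fun t h => ht _ _ _ h1 h, principal_mono.2 fun t h => ht _ _ _ h2 h⟩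
  · obtain ⟨k, h, -⟩ := hd i i
    exact principal_neBot_iff.2 ⟨k, h⟩

section

variable {Q : Type v} [AddCommGroup Q] [Module S Q] {I : Type v} {l : Filter I}
  {r : (I → Q) →ₗ[S] Q}

lemma IsLim.congr (h : IsLim l r) {u w : I → Q} (huw : ∀ᶠ i in l, u i = w i) : r u = r w := by
  rw [← sub_eq_zero, ← map_sub]
  exact h _ _ (huw.mono fun i hi => sub_eq_zero.2 hi)

lemma IsLim.mem2 (h : IsLim l r) {ρ : PP2 S} {u w : I → Q}
    (huw : ∀ᶠ i in l, (u i, w i) ∈ s2 ρ Q) : (r u, r w) ∈ s2 ρ Q := by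
  classical
  rw [h.congr (u := u) (w := fun i => if (u i, w i) ∈ s2 ρ Q then u i else 0)
      (huw.mono fun i hi => by simp [hi]),
    h.congr (u := w) (w := fun i => if (u i, w i) ∈ s2 ρ Q then w i else 0)
      (huw.mono fun i hi => by simp [hi])]
  refine map_s2 r (pi_s2.2 fun i => ?_)
  split_ifs with hi
  · exact hi
  · exact (s2 ρ Q).zero_mem

lemma IsLim.mem1 (h : IsLim l r) {φ : PP S} {u : I → Q}
    (hu : ∀ᶠ i in l, u i ∈ s1 φ Q) : r u ∈ s1 φ Q :=
  mem_two.1 (h.mem2 (w := u) (hu.mono fun _ hi => mem_two.2 hi))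

lemma IsLim.sub_const (h : IsLim l r) (u : I → Q) (c : Q) : r u - c = r fun i => u i - c := by
  rw [← h (fun _ => c) c (Eventually.of_forall fun _ => rfl), ← map_sub,
    h (fun _ => c) c (Eventually.of_forall fun _ => rfl)]
  rfl

end

/-- Families that vanish eventually. -/
def ev0 (S : Type) [Ring S] (Q : Type*) [AddCommGroup Q] [Module S Q] {I : Type*} (l : Filter I) :
    Submodule S (I → Q) where
  carrier := {u | ∀ᶠ i in l, u i = 0}
  zero_mem' := Eventually.of_forall fun _ => rfl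
  add_mem' := fun {u w} hu hw => (Eventually.and hu hw).mono fun i hi => by simp [hi.1, hi.2]
  smul_mem' := fun c u hu => Eventually.mono hu fun i hi => by simp [hi]

def cst (S : Type) [Ring S] (Q : Type*) [AddCommGroup Q] [Module S Q] {I : Type*} (l : Filter I) :
    Q →ₗ[S] (I → Q) ⧸ ev0 S Q l :=
  (ev0 S Q l).mkQ ∘ₗ LinearMap.pi fun _ => LinearMap.id

lemma cst_inj {Q : Type*} [AddCommGroup Q] [Module S Q] {I : Type*} (l : Filter I) [l.NeBot] :
    Function.Injective (cst S Q l) := by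
  rw [injective_iff_map_eq_zero]
  intro c hc
  have h : ∀ᶠ _ in l, c = 0 := (Submodule.Quotient.mk_eq_zero _).1 hc
  exact h.exists.elim fun _ h => h

lemma isLim_of_cst {Q : Type*} [AddCommGroup Q] [Module S Q] {I : Type*} (l : Filter I)
    (h : ((I → Q) ⧸ ev0 S Q l) →ₗ[S] Q) (hh : ∀ c, h (cst S Q l c) = c) :
    IsLim l (h ∘ₗ (ev0 S Q l).mkQ) := by
  intro u c hu
  rw [← hh c, LinearMap.comp_apply]
  congr 1
  exact (Submodule.Quotient.eq _).2 (hu.mono fun i hi => sub_eq_zero.2 hi)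

section

variable {Q : Type v} [AddCommGroup Q] [Module S Q]

lemma hasLim_of_pure (hQ : IsPureInjective S Q) : HasLim S Q := by
  intro I l hl
  obtain ⟨h, hh⟩ := hQ Q _ (cst S Q l) ⟨cst_inj l, by
    rintro m n b c ⟨y, hy⟩
    choose y' hy' using fun j => (ev0 S Q l).mkQ_surjective (y j)
    have h1 : ∀ i, ∀ᶠ t in l, ∑ j, b i j • y' j t = c i := fun i => by
      have h2 : (ev0 S Q l).mkQ (∑ j, b i j • y' j) = cst S Q l (c i) := by
        rw [← hy i, map_sum]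
        simp only [map_smul, hy']
      have h3 : ∀ᶠ t in l, _ := (Submodule.Quotient.eq _).1 h2
      exact h3.mono fun t ht => by simpa [sub_eq_zero, Finset.sum_apply] using ht
    obtain ⟨t, ht⟩ := (eventually_all.2 h1).exists
    exact ⟨fun j => y' j t, ht⟩⟩ LinearMap.id
  exact ⟨_, isLim_of_cst l h hh⟩

lemma lc_eq_sum {B : Type*} (τ : B → Q) (w : B →₀ S) (J : Finset B) (h : w.support ⊆ J) :
    Finsupp.linearCombination S τ w = ∑ j : J, w j • τ j := by
  rw [Finsupp.linearCombination_apply, Finsupp.sum_of_support_subset _ h _ (by simp),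
    Finset.sum_coe_sort J fun j => w j • τ j]

lemma ext_lim (hQ : HasLim S Q) {B : Type v} [AddCommGroup B] [Module S B] {C : Type v}
    (X : C → (B → Q) → Prop)
    (h : ∀ (E : Finset (B →₀ S)) (F : Finset C),
      (∀ w ∈ E, Finsupp.linearCombination S id w = 0) →
        ∃ σ : B → Q, (∀ w ∈ E, Finsupp.linearCombination S σ w = 0) ∧ ∀ c ∈ F, X c σ) :
    ∃ (I : Type v) (l : Filter I) (r : (I → Q) →ₗ[S] Q) (σ : I → B → Q) (f : B →ₗ[S] Q),
      IsLim l r ∧ (∀ b, f b = r fun i => σ i b) ∧ ∀ c, ∀ᶠ i in l, X c (σ i) := by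
  classical
  let I := {E : Finset (B →₀ S) // ∀ w ∈ E, Finsupp.linearCombination S id w = 0} × Finset C
  have : Nonempty I := ⟨⟨∅, by simp⟩, ∅⟩
  obtain ⟨l, hl, hl'⟩ := exists_filter (fun i j : I => i.1.1 ⊆ j.1.1 ∧ i.2 ⊆ j.2)
    (fun i j k h1 h2 => ⟨h1.1.trans h2.1, h1.2.trans h2.2⟩) fun i j =>
      ⟨⟨⟨i.1.1 ∪ j.1.1, fun w hw => (Finset.mem_union.1 hw).elim (i.1.2 w) (j.1.2 w)⟩, i.2 ∪ j.2⟩,
        ⟨Finset.subset_union_left, Finset.subset_union_left⟩,
        Finset.subset_union_right, Finset.subset_union_right⟩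
  obtain ⟨r, hr⟩ := hQ I l hl
  choose σ hσ hσ' using fun i : I => h i.1.1 i.2 i.1.2
  have h1 : ∀ w : B →₀ S, Finsupp.linearCombination S id w = 0 →
      ∀ᶠ i in l, Finsupp.linearCombination S (σ i) w = 0 := fun w hw =>
    (hl' ⟨⟨{w}, by simpa using hw⟩, ∅⟩).mono fun i hi => hσ i w (hi.1 (Finset.mem_singleton_self w))
  refine ⟨I, l, r, σ, ⟨⟨fun b => r fun i => σ i b, fun b b' => ?_⟩, fun s b => ?_⟩, hr,
    fun _ => rfl, fun c => (hl' ⟨⟨∅, by simp⟩, {c}⟩).mono fun i hi =>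
      hσ' i c (hi.2 (Finset.mem_singleton_self c))⟩
  · rw [← map_add]
    refine hr.congr ((h1 (Finsupp.single (b + b') 1 - Finsupp.single b 1 - Finsupp.single b' 1)
      (by simp)).mono fun i hi => ?_)
    simpa [sub_sub, sub_eq_zero] using hi
  · rw [RingHom.id_apply, ← map_smul]
    refine hr.congr ((h1 (Finsupp.single (s • b) 1 - Finsupp.single b s) (by simp)).mono
      fun i hi => ?_)
    simpa [sub_eq_zero] using hi

lemma pure_solve {A B : Type v} [AddCommGroup A] [Module S A] [AddCommGroup B] [Module S B]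
    {f : A →ₗ[S] B} (hf : IsPureEmbedding f) {κ : Type*} [Fintype κ] (w : κ → B →₀ S) (c : κ → A)
    (h : ∀ i, Finsupp.linearCombination S id (w i) = f (c i)) :
    ∃ τ : B → A, ∀ i, Finsupp.linearCombination S τ (w i) = c i := by
  classical
  let J : Finset B := Finset.univ.biUnion fun i => (w i).support
  have hJ : ∀ i, (w i).support ⊆ J := fun i =>
    Finset.subset_biUnion_of_mem (fun i => (w i).support) (Finset.mem_univ i)
  let e := (Fintype.equivFin κ).symm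
  let g := (Fintype.equivFin J).symm
  obtain ⟨y, hy⟩ := hf.2 _ _ (fun i j => w (e i) (g j)) (fun i => c (e i))
    ⟨fun j => (g j : B), fun i => by rw [← h, lc_eq_sum _ _ J (hJ _), ← g.sum_comp]; rfl⟩
  refine ⟨fun b => if hb : b ∈ J then y (g.symm ⟨b, hb⟩) else 0, fun i => ?_⟩
  obtain ⟨i, rfl⟩ := e.surjective i
  rw [lc_eq_sum _ _ J (hJ _), ← hy i, ← g.sum_comp]
  simp

lemma pure_of_hasLim (hQ : HasLim S Q) : IsPureInjective S Q := by
  classical
  intro A B _ _ _ _ f hf g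
  obtain ⟨I, l, r, σ, h, hr, hh, hX⟩ := ext_lim hQ (B := B) (fun (a : A) σ => σ (f a) = g a)
    fun E F hE => by
      obtain ⟨τ, hτ⟩ := pure_solve hf (κ := E ⊕ F)
        (Sum.elim (fun w => w.1) fun a => Finsupp.single (f a.1) 1)
        (Sum.elim 0 fun a => a.1) (by
          rintro (w | a)
          · simpa using hE w.1 w.2
          · simp)
      refine ⟨fun b => g (τ b), fun w hw => ?_, fun a ha => ?_⟩
      · have h1 := congrArg g (hτ (.inl ⟨w, hw⟩))
        rw [Finsupp.apply_linearCombination] at h1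
        exact h1.trans (map_zero g)
      · simpa using congrArg g (hτ (.inr ⟨a, ha⟩))
  exact ⟨h, fun a => (hh _).trans (hr _ _ (hX a))⟩

lemma HasLim.pi (hQ : HasLim S Q) : HasLim S (ℕ → Q) := by
  intro I l hl
  obtain ⟨r, hr⟩ := hQ I l hl
  refine ⟨LinearMap.pi fun n => r ∘ₗ LinearMap.pi fun i =>
      (LinearMap.proj n : (ℕ → Q) →ₗ[S] Q) ∘ₗ (LinearMap.proj i : (I → ℕ → Q) →ₗ[S] ℕ → Q),
    fun u c hu => funext fun n => hr _ _ (hu.mono fun i hi => congrFun hi n)⟩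

lemma HasLim.retract (hQ : HasLim S Q) {A : Type v} [AddCommGroup A] [Module S A] (j : A →ₗ[S] Q)
    (p : Q →ₗ[S] A) (h : ∀ x, p (j x) = x) : HasLim S A := by
  intro I l hl
  obtain ⟨r, hr⟩ := hQ I l hl
  refine ⟨p ∘ₗ r ∘ₗ LinearMap.pi fun i => j ∘ₗ LinearMap.proj i, fun u c hu => ?_⟩
  rw [← h c]
  exact congrArg p (hr _ _ (hu.mono fun i hi => congrArg j hi))

/-- A pair of `M` can be moved by a homomorphism into a coset as soon as each pp condition it
satisfies has a solution in that coset. -/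
lemma move2 (hQ : HasLim S Q) {M : Type v} [AddCommGroup M] [Module S M] (a b : M) (ω : PP2 S)
    (c d : Q) (h : ∀ θ : PP2 S, (a, b) ∈ s2 θ M →
      ∃ x y, (x, y) ∈ s2 θ Q ∧ (x - c, y - d) ∈ s2 ω Q) :
    ∃ f : M →ₗ[S] Q, (f a - c, f b - d) ∈ s2 ω Q := by
  classical
  obtain ⟨I, l, r, σ, f, hr, hf, hX⟩ := ext_lim hQ (B := M)
    (fun (_ : PUnit.{v + 1}) σ => (σ a - c, σ b - d) ∈ s2 ω Q) fun E F hE => by
      let J : Finset M := insert a (insert b (E.biUnion fun w => w.support))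
      have hJ : ∀ w ∈ E, w.support ⊆ J := fun w hw =>
        (Finset.subset_biUnion_of_mem (fun w => w.support) hw).trans
          ((Finset.subset_insert _ _).trans (Finset.subset_insert _ _))
      have ha : a ∈ J := Finset.mem_insert_self _ _
      have hb : b ∈ J := Finset.mem_insert_of_mem (Finset.mem_insert_self _ _)
      obtain ⟨θ, hθ⟩ := exists_pp2.{v} (κ := E ⊕ Bool) (μ := J)
        (Sum.elim 0 fun t => cond t (-1 : S) 0) (Sum.elim 0 fun t => cond t 0 (-1 : S))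
        (Sum.elim (fun w j => w.1 j) fun t => cond t (Pi.single ⟨a, ha⟩ 1) (Pi.single ⟨b, hb⟩ 1))
      obtain ⟨x, y, hxy, hω⟩ := h θ ((hθ M a b).2 ⟨fun j => j.1, by
        rintro (w | _ | _)
        · have h1 := hE w.1 w.2
          rw [lc_eq_sum _ _ J (hJ _ w.2)] at h1
          simpa using h1
        · simp [Pi.single_apply, ite_smul]
        · simp [Pi.single_apply, ite_smul]⟩)
      obtain ⟨z, hz⟩ := (hθ Q x y).1 hxy
      have h1 : z ⟨a, ha⟩ = x := Eq.symm (by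
        simpa [Pi.single_apply, ite_smul, neg_add_eq_zero] using hz (.inr true))
      have h2 : z ⟨b, hb⟩ = y := Eq.symm (by
        simpa [Pi.single_apply, ite_smul, neg_add_eq_zero] using hz (.inr false))
      refine ⟨fun m => if hm : m ∈ J then z ⟨m, hm⟩ else 0, fun w hw => ?_, fun _ _ => ?_⟩
      · rw [lc_eq_sum _ _ J (hJ _ hw)]
        simpa using hz (.inl ⟨w, hw⟩)
      · simpa [ha, hb, h1, h2] using hω
  refine ⟨f, ?_⟩
  rw [hf, hf, hr.sub_const, hr.sub_const]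
  exact hr.mem2 (hX PUnit.unit)

lemma move1 (hQ : HasLim S Q) {M : Type v} [AddCommGroup M] [Module S M] (a : M) (ψ : PP S)
    (c : Q) (h : ∀ θ : PP S, a ∈ s1 θ M → ∃ x, x ∈ s1 θ Q ∧ x - c ∈ s1 ψ Q) :
    ∃ f : M →ₗ[S] Q, f a - c ∈ s1 ψ Q := by
  obtain ⟨f, hf⟩ := move2 hQ a 0 (two ψ) c 0 fun θ hθ => by
    obtain ⟨x, h1, h2⟩ := h (one θ) (mem_one.2 hθ)
    exact ⟨x, 0, mem_one.1 h1, mem_two.2 h2⟩
  exact ⟨f, mem_two.1 hf⟩

lemma move1_eq (hQ : HasLim S Q) {M : Type v} [AddCommGroup M] [Module S M] (a : M)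
    (c : Q) (h : ∀ θ : PP S, a ∈ s1 θ M → c ∈ s1 θ Q) : ∃ f : M →ₗ[S] Q, f a = c := by
  obtain ⟨f, hf⟩ := move1 hQ a (botF S) c fun θ hθ => ⟨c, h θ hθ, by simp⟩
  exact ⟨f, sub_eq_zero.1 (mem_botF.1 hf)⟩

lemma move2_eq (hQ : HasLim S Q) {M : Type v} [AddCommGroup M] [Module S M] (a b : M)
    (c d : Q) (h : ∀ θ : PP2 S, (a, b) ∈ s2 θ M → (c, d) ∈ s2 θ Q) :
    ∃ f : M →ₗ[S] Q, f a = c ∧ f b = d := by
  obtain ⟨ω, hω⟩ := ex_prod.{v} (botF S) (botF S)
  obtain ⟨f, hf⟩ := move2 hQ a b ω c d fun θ hθ => ⟨c, d, h θ hθ, by simp [hω]⟩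
  rw [hω, mem_botF, mem_botF, sub_eq_zero, sub_eq_zero] at hf
  exact ⟨f, hf⟩

end

end Pool.Agent.Lib.MP_cfafa5_al.Ctb
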