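import Mathlib
import Pool.Agent.Lib.MP_cfafa5_al.Ctb.Lim

/-!
Hulls of elements in pure-injective modules and their consequences for indecomposable modules.
-/

set_option autoImplicit false

universe v

namespace Pool.Agent.Lib.MP_cfafa5_al.Ctb

open Pool.Agent.Lib.MP_cfafa5_al Filter

variable {S : Type} [Ring S]

lemma chain_filter {α : Type*} {ρ : α → α → Prop} (hr : ∀ a, ρ a a)
    (ht : ∀ a b c, ρ a b → ρ b c → ρ a c) {c : Set α} (hc : IsChain ρ c) (hne : c.Nonempty) :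
    ∃ l : Filter c, l.NeBot ∧ ∀ i : c, ∀ᶠ j : c in l, ρ i j := by
  have := hne.to_subtype
  refine exists_filter (fun i j : c => ρ i j) (fun i j k => ht _ _ _) fun i j => ?_
  by_cases h : i.1 = j.1
  · exact ⟨j, h ▸ hr _, hr _⟩
  · rcases hc i.2 j.2 h with h1 | h1
    · exact ⟨j, h1, hr _⟩
    · exact ⟨i, hr _, h1⟩

section

variable {P : Type v} [AddCommGroup P] [Module S P]

lemma hull (hP : HasLim S P) (a : P) (ψ : PP S) :
    ∃ e : P →ₗ[S] P, (∀ x, e (e x) = e x) ∧ e a - a ∈ s1 ψ P ∧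
      ∀ g : P →ₗ[S] P, g a - a ∈ s1 ψ P → ∃ g' : P →ₗ[S] P, ∀ x, g' (g (e x)) = e x := by
  classical
  let G : (P →ₗ[S] P) → Prop := fun g => g a - a ∈ s1 ψ P
  have Gid : G LinearMap.id := by simp [G]
  have Gc : ∀ g g', G g → G g' → G (g ∘ₗ g') := fun g g' h h' => by
    simpa [G, map_sub] using add_mem (map_s1 g h') h
  have Gl : ∀ (I : Type v) (l : Filter I) (r : (I → P) →ₗ[S] P), IsLim l r →
      ∀ g : I → P →ₗ[S] P, (∀ i, G (g i)) → G (r ∘ₗ LinearMap.pi g) := fun I l r hr g hg => by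
    show r (fun i => g i a) - a ∈ s1 ψ P
    rw [hr.sub_const]
    exact hr.mem1 (Eventually.of_forall hg)
  obtain ⟨H, hH⟩ := zorn_subset {A : Set P | ∀ g, G g → ∃ g', G g' ∧ ∀ x ∈ A, g' (g x) = x}
    fun c hc hch => by
      rcases c.eq_empty_or_nonempty with rfl | hne
      · exact ⟨∅, fun g _ => ⟨_, Gid, by simp⟩, by simp⟩
      refine ⟨⋃₀ c, fun g hg => ?_, fun s hs => Set.subset_sUnion_of_mem hs⟩
      obtain ⟨l, hl, hl'⟩ := chain_filter (fun _ => subset_rfl) (fun _ _ _ => subset_trans) hch hne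
      obtain ⟨r, hr⟩ := hP c l hl
      choose g' h1 h2 using fun i : c => hc i.2 g hg
      refine ⟨_, Gl c l r hr g' h1, ?_⟩
      rintro x ⟨A, hA, hx⟩
      exact hr _ _ ((hl' ⟨A, hA⟩).mono fun j hj => h2 j x (hj hx))
  let M := {f : P →ₗ[S] P // G f ∧ ∀ x ∈ H, f x = x}
  let mul : M → M → M := fun f g => ⟨f.1 ∘ₗ g.1, Gc _ _ f.2.1 g.2.1, fun x hx => by
    rw [LinearMap.comp_apply, g.2.2 x hx, f.2.2 x hx]⟩
  let un : M := ⟨LinearMap.id, Gid, fun _ _ => rfl⟩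
  have htr : ∀ f f' f'' : M, (∃ g : M, ∀ x, g.1 (f.1 x) = f'.1 x) →
      (∃ g : M, ∀ x, g.1 (f'.1 x) = f''.1 x) → ∃ g : M, ∀ x, g.1 (f.1 x) = f''.1 x := by
    rintro f f' f'' ⟨g, hg⟩ ⟨g', hg'⟩
    exact ⟨mul g' g, fun x => by rw [← hg', ← hg]; rfl⟩
  obtain ⟨f, hf⟩ := exists_maximal_of_chains_bounded
    (r := fun f f' : M => ∃ g : M, ∀ x, g.1 (f.1 x) = f'.1 x) (fun c hch => by
      rcases c.eq_empty_or_nonempty with rfl | hne
      · exact ⟨un, by simp⟩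
      obtain ⟨l, hl, hl'⟩ := chain_filter (fun _ => ⟨un, fun _ => rfl⟩) htr hch hne
      obtain ⟨r, hr⟩ := hP c l hl
      let lim : (c → M) → M := fun g => ⟨r ∘ₗ LinearMap.pi fun i => (g i).1,
        Gl c l r hr _ fun i => (g i).2.1,
        fun x hx => hr _ _ (Eventually.of_forall fun i => (g i).2.2 x hx)⟩
      refine ⟨lim fun i => i.1, fun f hf => ?_⟩
      have h1 : ∀ j : c, ∃ g : M, (∃ g : M, ∀ x, g.1 (f.1 x) = j.1.1 x) →
          ∀ x, g.1 (f.1 x) = j.1.1 x := fun j => by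
        by_cases h : ∃ g : M, ∀ x, g.1 (f.1 x) = j.1.1 x
        · exact h.imp fun g hg _ => hg
        · exact ⟨un, fun h' => absurd h' h⟩
      choose g hg using h1
      exact ⟨lim g, fun x => hr.congr ((hl' ⟨f, hf⟩).mono fun j hj => hg j hj x)⟩)
    (fun {f f' f''} => htr f f' f'')
  have h1 : Set.range f.1 ⊆ H := hH.le_of_ge (fun g hg => by
    obtain ⟨g', h1, h2⟩ := hH.prop g hg
    obtain ⟨g'', h3⟩ := hf (mul ⟨g' ∘ₗ g, Gc _ _ h1 hg, h2⟩ f)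
      ⟨⟨g' ∘ₗ g, Gc _ _ h1 hg, h2⟩, fun _ => rfl⟩
    refine ⟨g''.1 ∘ₗ g', Gc _ _ g''.2.1 h1, ?_⟩
    rintro _ ⟨x, rfl⟩
    exact h3 x) fun x hx => ⟨x, f.2.2 x hx⟩
  refine ⟨f.1, fun x => f.2.2 _ (h1 ⟨x, rfl⟩), f.2.1, fun g hg => ?_⟩
  obtain ⟨g', -, h2⟩ := hH.prop g hg
  exact ⟨g', fun x => h2 _ (h1 ⟨x, rfl⟩)⟩

lemma idem_eq (hi : IsIndecomposable S P) {e : P →ₗ[S] P} (he : ∀ x, e (e x) = e x) :
    (∀ x, e x = 0) ∨ ∀ x, e x = x := by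
  have hp : IsIdempotentElem e := LinearMap.ext he
  rcases hi.2 _ _ (LinearMap.IsIdempotentElem.isCompl hp) with h | h
  · exact Or.inl fun x => show e x ∈ (⊥ : Submodule S P) from h ▸ ⟨x, rfl⟩
  · refine Or.inr fun x => ?_
    have h4 : e x - x ∈ (⊥ : Submodule S P) := by
      rw [← h, LinearMap.mem_ker, map_sub, he, sub_self]
    exact sub_eq_zero.1 h4

lemma unit_of (hP : HasLim S P) (hi : IsIndecomposable S P) {a : P} {ψ : PP S}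
    (ha : a ∉ s1 ψ P) {g : P →ₗ[S] P} (hg : g a - a ∈ s1 ψ P) :
    ∃ g' : P →ₗ[S] P, (∀ x, g' (g x) = x) ∧ ∀ x, g (g' x) = x := by
  obtain ⟨e, h1, h2, h3⟩ := hull hP a ψ
  rcases idem_eq hi h1 with h | h
  · exact absurd (by simpa [h] using h2) ha
  obtain ⟨g', hg'⟩ := h3 g hg
  simp only [h] at hg'
  refine ⟨g', hg', ?_⟩
  rcases idem_eq hi (e := g ∘ₗ g') (fun x => by simp [hg']) with h' | h'
  · have h4 : g a = 0 := by simpa [hg'] using h' (g a)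
    exact absurd (by simpa [h4] using hg) ha
  · exact h'

end

/-- Any two pp pairs open on `M` have pp-isomorphic subquotients open on `M`. -/
def Meet (S : Type) [Ring S] (M : Type v) [AddCommGroup M] [Module S M] : Prop :=
  ∀ U1 V1 U2 V2 : AddSubgroup M, D1 S U1 → D1 S V1 → D1 S U2 → D1 S V2 → ¬ U1 ≤ V1 → ¬ U2 ≤ V2 →
    ∃ R, D2 S R ∧ pr1 R ≤ U1 ∧ U1 ⊓ V1 ≤ in1 R ∧ pr2 R ≤ U2 ∧ U2 ⊓ V2 ≤ in2 R ∧ ¬ pr1 R ≤ in1 R

section

variable {P Q : Type v} [AddCommGroup P] [Module S P] [AddCommGroup Q] [Module S Q]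

lemma meet_of (hP : HasLim S P) (hi : IsIndecomposable S P) : Meet S P := by
  intro U1 V1 U2 V2 hU1 hV1 hU2 hV2 h1 h2
  obtain ⟨a, ha, ha'⟩ := SetLike.not_le_iff_exists.1 h1
  obtain ⟨b, hb, hb'⟩ := SetLike.not_le_iff_exists.1 h2
  obtain ⟨ω, hω⟩ := D2.prod (hU1.inf hV1) (hU2.inf hV2)
  by_contra hcon
  obtain ⟨f, hf⟩ := move2 hP a b ω a 0 fun θ hθ => by
    have h3 : pr1 ((s2 θ P ⊓ U1.prod U2) ⊔ (U1 ⊓ V1).prod (U2 ⊓ V2)) ≤
        in1 ((s2 θ P ⊓ U1.prod U2) ⊔ (U1 ⊓ V1).prod (U2 ⊓ V2)) := by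
      by_contra h3
      refine hcon ⟨_, ((D2.inf ⟨θ, rfl⟩ (D2.prod hU1 hU2)).sup ⟨ω, hω⟩), fun x hx => ?_,
        fun x hx => AddSubgroup.mem_sup_right ⟨hx, zero_mem _⟩, fun x hx => ?_,
        fun x hx => AddSubgroup.mem_sup_right ⟨zero_mem _, hx⟩, h3⟩
      · obtain ⟨y, hy⟩ := mem_pr1.1 hx
        obtain ⟨p, hp, q, hq, h⟩ := AddSubgroup.mem_sup.1 hy
        rw [← show p.1 + q.1 = x from congrArg Prod.fst h]
        exact add_mem hp.2.1 hq.1.1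
      · obtain ⟨y, hy⟩ := mem_pr2.1 hx
        obtain ⟨p, hp, q, hq, h⟩ := AddSubgroup.mem_sup.1 hy
        rw [← show p.2 + q.2 = x from congrArg Prod.snd h]
        exact add_mem hp.2.2 hq.2.1
    obtain ⟨p, hp, q, hq, h⟩ := AddSubgroup.mem_sup.1
      (h3 (mem_pr1.2 ⟨b, AddSubgroup.mem_sup_left ⟨hθ, ha, hb⟩⟩))
    refine ⟨p.1, p.2, hp.1, ?_⟩
    have h4 : (p.1 - a, p.2 - 0) = -q := by
      rw [← show p.1 + q.1 = a from congrArg Prod.fst h,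
        ← show p.2 + q.2 = 0 from congrArg Prod.snd h]
      ext <;> simp
    rw [h4, hω]
    exact neg_mem hq
  rw [hω] at hf
  obtain ⟨ψ1, rfl⟩ := hV1
  obtain ⟨ψ2, rfl⟩ := hV2
  obtain ⟨g, hg, -⟩ := unit_of hP hi ha' hf.1.2
  exact hb' (by simpa [hg] using map_s1 g hf.2.2)

lemma equiv_of (hP : HasLim S P) (hi : IsIndecomposable S P) (hQ : HasLim S Q)
    (hj : IsIndecomposable S Q) {ψ : PP S} {a : P} {b : Q} (ha : a ∉ s1 ψ P) (hb : b ∉ s1 ψ Q)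
    {f : P →ₗ[S] Q} {g : Q →ₗ[S] P} (hf : f a - b ∈ s1 ψ Q) (hg : g b - a ∈ s1 ψ P) :
    Nonempty (P ≃ₗ[S] Q) := by
  obtain ⟨u, hu, -⟩ := unit_of hP hi ha (g := g ∘ₗ f)
    (by simpa [map_sub] using add_mem (map_s1 g hf) hg)
  obtain ⟨w, -, hw⟩ := unit_of hQ hj hb (g := f ∘ₗ g)
    (by simpa [map_sub] using add_mem (map_s1 f hg) hf)
  refine ⟨LinearEquiv.ofBijective f ⟨fun x y h => ?_, fun y => ⟨_, hw y⟩⟩⟩
  rw [← hu x, ← hu y, LinearMap.comp_apply, LinearMap.comp_apply, h]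

lemma equiv_of_type (hP : HasLim S P) (hi : IsIndecomposable S P) (hQ : HasLim S Q)
    (hj : IsIndecomposable S Q) {a : P} {b : Q} (ha : a ≠ 0) (hb : b ≠ 0)
    (h : ∀ θ : PP S, a ∈ s1 θ P ↔ b ∈ s1 θ Q) : Nonempty (P ≃ₗ[S] Q) := by
  obtain ⟨f, hf⟩ := move1_eq hQ a b fun θ => (h θ).1
  obtain ⟨g, hg⟩ := move1_eq hP b a fun θ => (h θ).2
  exact equiv_of hP hi hQ hj (ψ := botF S) (mt mem_botF.1 ha) (mt mem_botF.1 hb)
    (f := f) (g := g) (by simp [hf]) (by simp [hg])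

/-- `φ/ψ` is a minimal pair on `M`. -/
def MinPair (M : Type v) [AddCommGroup M] [Module S M] (φ ψ : PP S) : Prop :=
  s1 ψ M ≤ s1 φ M ∧ ¬ s1 φ M ≤ s1 ψ M ∧
    ∀ χ : PP S, s1 ψ M ≤ s1 χ M → s1 χ M ≤ s1 φ M → s1 χ M ≤ s1 ψ M ∨ s1 φ M ≤ s1 χ M

/-- `M` and `N` have the same inclusions between pp conditions. -/
def Same (S : Type) [Ring S] (M N : Type v) [AddCommGroup M] [Module S M] [AddCommGroup N]
    [Module S N] : Prop :=
  ∀ φ ψ : PP S, s1 φ M ≤ s1 ψ M ↔ s1 φ N ≤ s1 ψ N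

lemma Same.symm (h : Same S P Q) : Same S Q P := fun φ ψ => (h φ ψ).symm

lemma MinPair.same {φ ψ : PP S} (hm : MinPair P φ ψ) (h : Same S P Q) : MinPair Q φ ψ := by
  simpa only [MinPair, ← h _ _] using hm

lemma min_move (hQ : HasLim S Q) (h : Same S P Q) {φ ψ : PP S} (hm : MinPair P φ ψ) {a : P} {b : Q}
    (ha : a ∈ s1 φ P) (ha' : a ∉ s1 ψ P) (hb : b ∈ s1 φ Q) :
    ∃ f : P →ₗ[S] Q, f a - b ∈ s1 ψ Q := by
  refine move1 hQ a ψ b fun θ hθ => ?_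
  obtain ⟨χ0, h0⟩ := ex_inf1.{v} θ φ
  obtain ⟨χ, hχ⟩ := ex_sup1.{v} χ0 ψ
  rcases hm.2.2 χ (by rw [hχ]; exact le_sup_right)
    (by rw [hχ, h0]; exact sup_le inf_le_right hm.1) with h1 | h1
  · exact absurd (h1 (by rw [hχ, h0]; exact AddSubgroup.mem_sup_left ⟨hθ, ha⟩)) ha'
  · have h2 := (h _ _).1 h1 hb
    rw [hχ, h0] at h2
    obtain ⟨x, hx, y, hy, rfl⟩ := AddSubgroup.mem_sup.1 h2
    exact ⟨x, hx.1, by simpa using hy⟩

lemma equiv_of_min (hP : HasLim S P) (hi : IsIndecomposable S P) (hQ : HasLim S Q)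
    (hj : IsIndecomposable S Q) (h : Same S P Q) {φ ψ : PP S} (hm : MinPair P φ ψ) :
    Nonempty (P ≃ₗ[S] Q) := by
  obtain ⟨a, ha, ha'⟩ := SetLike.not_le_iff_exists.1 hm.2.1
  obtain ⟨b, hb, hb'⟩ := SetLike.not_le_iff_exists.1 (hm.same h).2.1
  obtain ⟨f, hf⟩ := min_move hQ h hm ha ha' hb
  obtain ⟨g, hg⟩ := min_move hP h.symm (hm.same h) hb hb' ha
  exact equiv_of hP hi hQ hj ha' hb' hf hg

end

end Pool.Agent.Lib.MP_cfafa5_al.Ctb
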