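import Mathlib
import Pool.Agent.Lib.MP_cfafa5_al.Ctb.Hull

/-!
Character modules and elementary duality.
-/

set_option autoImplicit false

universe v

namespace Pool.Agent.Lib.MP_cfafa5_al.Ctb

open Pool.Agent.Lib.MP_cfafa5_al Filter

/-- An anti-isomorphism of rings. -/
structure Anti (S S' : Type) [Ring S] [Ring S'] where
  f : S →+ S'
  g : S' →+ S
  fg : ∀ x, f (g x) = x
  gf : ∀ x, g (f x) = x
  f_one : f 1 = 1
  g_one : g 1 = 1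
  f_mul : ∀ x y, f (x * y) = f y * f x
  g_mul : ∀ x y, g (x * y) = g y * g x

variable {S S' : Type} [Ring S] [Ring S']

def Anti.symm (τ : Anti S S') : Anti S' S :=
  ⟨τ.g, τ.f, τ.gf, τ.fg, τ.g_one, τ.f_one, τ.g_mul, τ.f_mul⟩

@[simp] lemma Anti.symm_g (τ : Anti S S') : τ.symm.g = τ.f := rfl

abbrev T : Type := AddCircle (1 : ℚ)

lemma fac {A B : Type*} [AddCommGroup A] [AddCommGroup B] (f : A →+ B) (χ : A →+ T)
    (h : ∀ x, f x = 0 → χ x = 0) : ∃ η : B →+ T, ∀ x, η (f x) = χ x := by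
  obtain ⟨η, hη⟩ := (Module.Baer.of_divisible T).extension_property_addMonoidHom
    (QuotientAddGroup.kerLift f) (QuotientAddGroup.kerLift_injective f)
    (QuotientAddGroup.lift f.ker χ h)
  exact ⟨η, fun x => DFunLike.congr_fun hη (QuotientAddGroup.mk x)⟩

lemma sep {A : Type*} [AddCommGroup A] (U : AddSubgroup A) {x : A} (hx : x ∉ U) :
    ∃ χ : A →+ T, (∀ u ∈ U, χ u = 0) ∧ χ x ≠ 0 := by
  obtain ⟨c, hc⟩ := CharacterModule.exists_character_apply_ne_zero_of_ne_zero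
    (a := (QuotientAddGroup.mk x : A ⧸ U)) (mt (QuotientAddGroup.eq_zero_iff x).1 hx)
  refine ⟨AddMonoidHom.comp c (QuotientAddGroup.mk' U), fun u hu => ?_, hc⟩
  show c (QuotientAddGroup.mk u) = 0
  rw [(QuotientAddGroup.eq_zero_iff u).2 hu, map_zero]

/-- The character module. -/
def Ch (_ : Anti S S') (M : Type v) [AddCommGroup M] : Type v := M →+ T

section

variable {τ : Anti S S'} {M : Type v} [AddCommGroup M]

instance : AddCommGroup (Ch τ M) := inferInstanceAs (AddCommGroup (M →+ T))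

def ap (χ : Ch τ M) : M →+ T := χ

def mkc (τ : Anti S S') (χ : M →+ T) : Ch τ M := χ

@[simp] lemma ap_mkc (χ : M →+ T) : ap (mkc τ χ) = χ := rfl

lemma Ch.ext {χ η : Ch τ M} (h : ∀ x, ap χ x = ap η x) : χ = η := AddMonoidHom.ext h

@[simp] lemma ap_add (χ η : Ch τ M) (x : M) : ap (χ + η) x = ap χ x + ap η x := rfl

@[simp] lemma ap_zero (x : M) : ap (0 : Ch τ M) x = 0 := rfl

@[simp] lemma ap_neg (χ : Ch τ M) (x : M) : ap (-χ) x = -ap χ x := rfl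

@[simp] lemma ap_sum {ι : Type*} (s : Finset ι) (χ : ι → Ch τ M) (x : M) :
    ap (∑ i ∈ s, χ i) x = ∑ i ∈ s, ap (χ i) x :=
  map_sum (⟨⟨fun χ : Ch τ M => ap χ x, rfl⟩, fun _ _ => rfl⟩ : Ch τ M →+ T) χ s

variable [Module S M]

instance : SMul S' (Ch τ M) :=
  ⟨fun s χ => mkc τ ((ap χ).comp ⟨⟨fun x => τ.g s • x, smul_zero _⟩, smul_add _⟩)⟩

@[simp] lemma ap_smul (s : S') (χ : Ch τ M) (x : M) : ap (s • χ) x = ap χ (τ.g s • x) := rfl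

instance : Module S' (Ch τ M) where
  one_smul χ := Ch.ext fun x => by simp [τ.g_one]
  mul_smul s t χ := Ch.ext fun x => by simp [τ.g_mul, mul_smul]
  smul_zero s := Ch.ext fun x => by simp
  smul_add s χ η := Ch.ext fun x => by simp
  add_smul s t χ := Ch.ext fun x => by simp [add_smul]
  zero_smul χ := Ch.ext fun x => by simp

lemma hasLim_ch : HasLim S' (Ch τ M) := by
  intro I l hl
  obtain ⟨h, hh⟩ := (Module.Baer.of_divisible T).extension_property (cst ℤ T l) (cst_inj l)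
    LinearMap.id
  have hr := isLim_of_cst l h fun c => LinearMap.congr_fun hh c
  set r := h ∘ₗ (ev0 ℤ T l).mkQ
  refine ⟨⟨⟨fun u => mkc τ ⟨⟨fun x => r fun i => ap (u i) x, ?_⟩, fun x y => ?_⟩, fun u w =>
    Ch.ext fun x => ?_⟩, fun s u => Ch.ext fun x => rfl⟩, fun u c hu => Ch.ext fun x =>
      hr _ _ (hu.mono fun i hi => by rw [hi])⟩
  · simp only [map_zero]
    exact map_zero r
  · simp only [map_add]
    exact map_add r _ _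
  · exact map_add r _ _

end

lemma sum_single_ap {A ι : Type*} [AddCommGroup A] [Fintype ι] [DecidableEq ι] (ζ : (ι → A) →+ T)
    (u : ι → A) : ∑ i, ζ (Pi.single i (u i)) = ζ u := by
  rw [← map_sum, Finset.univ_sum_single]

/-- The half of duality that computes `ρ'` on character modules. -/
def Half2 (τ : Anti S S') (ρ : PP2 S) (ρ' : PP2 S') : Prop :=
  ∀ (M : Type v) [AddCommGroup M] [Module S M] (χ η : Ch τ M),
    (χ, η) ∈ s2 ρ' (Ch τ M) ↔ ∀ x y, (x, y) ∈ s2 ρ M → ap χ x + ap η y = 0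

def Half1 (τ : Anti S S') (φ : PP S) (φ' : PP S') : Prop :=
  ∀ (M : Type v) [AddCommGroup M] [Module S M] (χ : Ch τ M),
    χ ∈ s1 φ' (Ch τ M) ↔ ∀ x ∈ s1 φ M, ap χ x = 0

lemma ex_dual2 (τ : Anti S S') (ρ : PP2 S) :
    ∃ ρ' : PP2 S', Half2.{v} τ ρ ρ' ∧ Half2.{v} τ.symm ρ' ρ ∧
      ∀ (M : Type v) [AddCommGroup M] [Module S' M] (x y : M), (x, y) ∈ s2 ρ' M ↔
        ∃ z : Fin ρ.k → M, x = ∑ i, τ.f (ρ.a i) • z i ∧ y = ∑ i, τ.f (ρ.a' i) • z i ∧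
          ∀ l, ∑ i, τ.f (ρ.b i l) • z i = 0 := by
  classical
  obtain ⟨ρ', h0⟩ := exists_pp2.{v} (κ := Bool ⊕ Fin ρ.m) (μ := Fin ρ.k)
    (Sum.elim (fun t => cond t (-1 : S') 0) 0) (Sum.elim (fun t => cond t 0 (-1 : S')) 0)
    (Sum.elim (fun t i => cond t (τ.f (ρ.a i)) (τ.f (ρ.a' i))) fun l i => τ.f (ρ.b i l))
  have hρ : ∀ (M : Type v) [AddCommGroup M] [Module S' M] (x y : M), (x, y) ∈ s2 ρ' M ↔
      ∃ z : Fin ρ.k → M, x = ∑ i, τ.f (ρ.a i) • z i ∧ y = ∑ i, τ.f (ρ.a' i) • z i ∧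
        ∀ l, ∑ i, τ.f (ρ.b i l) • z i = 0 := fun M _ _ x y => by
    rw [h0]
    refine exists_congr fun z => ?_
    simp [neg_add_eq_zero, and_comm, and_assoc]
  refine ⟨ρ', fun M _ _ χ η => ?_, fun M _ _ χ η => ?_, hρ⟩
  · rw [hρ]
    constructor
    · rintro ⟨z, rfl, rfl, hz⟩ x y ⟨w, hw⟩
      have h1 : ∀ l, ∑ i, ap (z i) (ρ.b i l • w l) = 0 := fun l => by
        simpa [τ.gf] using congrArg (fun c => ap c (w l)) (hz l)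
      have h2 : ∑ i, ap (z i) (ρ.a i • x + ρ.a' i • y + ∑ j, ρ.b i j • w j) = 0 := by simp [hw]
      simp only [map_add, map_sum, Finset.sum_add_distrib] at h2
      rw [Finset.sum_comm] at h2
      simpa [h1, τ.gf] using h2
    · intro h
      let F : M × M × (Fin ρ.m → M) →+ (Fin ρ.k → M) :=
        ⟨⟨fun p i => ρ.a i • p.1 + ρ.a' i • p.2.1 + ∑ j, ρ.b i j • p.2.2 j, by ext; simp⟩,
          fun p q => by
            ext i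
            simp only [Prod.fst_add, Prod.snd_add, Pi.add_apply, smul_add, Finset.sum_add_distrib]
            abel⟩
      obtain ⟨ζ, hζ⟩ := fac F ((ap χ).comp (AddMonoidHom.fst _ _) +
        (ap η).comp ((AddMonoidHom.fst _ _).comp (AddMonoidHom.snd _ _)))
        fun p hp => h p.1 p.2.1 ⟨p.2.2, congrFun hp⟩
      have h1 : ∀ (c : Fin ρ.k → S) (t : M), ap (∑ i, τ.f (c i) •
          mkc τ (ζ.comp (AddMonoidHom.single (fun _ => M) i))) t = ζ fun i => c i • t :=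
        fun c t => by simp [τ.gf, ← sum_single_ap ζ fun i => c i • t]
      refine ⟨fun i => mkc τ (ζ.comp (AddMonoidHom.single (fun _ => M) i)),
        Ch.ext fun t => ?_, Ch.ext fun t => ?_, fun l => Ch.ext fun t => ?_⟩
      · simpa [h1, F] using (hζ (t, 0, 0)).symm
      · simpa [h1, F] using (hζ (0, t, 0)).symm
      · simpa [h1, F, Pi.single_apply] using hζ (0, 0, Pi.single l t)
  · constructor
    · rintro ⟨ω, hω⟩ x y hxy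
      obtain ⟨z, rfl, rfl, hz⟩ := (hρ M x y).1 hxy
      have h1 : ∀ i, ap χ (τ.f (ρ.a i) • z i) + ap η (τ.f (ρ.a' i) • z i) +
          ∑ l, ap (ω l) (τ.f (ρ.b i l) • z i) = 0 := fun i => by
        simpa using congrArg (fun c => ap c (z i)) (hω i)
      have h2 : ∑ i, ∑ l, ap (ω l) (τ.f (ρ.b i l) • z i) = 0 := by
        rw [Finset.sum_comm]
        simp [← map_sum, hz]
      have h3 := Finset.sum_eq_zero (s := Finset.univ) fun i _ => h1 i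
      simpa [Finset.sum_add_distrib, h2, map_sum] using h3
    · intro h
      let G : (Fin ρ.k → S) → ((Fin ρ.k → M) →+ M) := fun c =>
        ⟨⟨fun z => ∑ i, τ.f (c i) • z i, by simp⟩, fun p q => by simp [Finset.sum_add_distrib]⟩
      obtain ⟨ζ, hζ⟩ := fac (AddMonoidHom.pi fun l => G fun i => ρ.b i l)
        ((ap χ).comp (G ρ.a) + (ap η).comp (G ρ.a'))
        fun z hz => h _ _ ((hρ M _ _).2 ⟨z, rfl, rfl, congrFun hz⟩)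
      refine ⟨fun l => -mkc τ.symm (ζ.comp (AddMonoidHom.single (fun _ => M) l)),
        fun i => Ch.ext fun t => ?_⟩
      have h1 := hζ (Pi.single i t)
      rw [← sum_single_ap] at h1
      simp [G, Pi.single_apply] at h1
      simp [h1]

def Dual1 (τ : Anti S S') (φ : PP S) (φ' : PP S') : Prop :=
  Half1.{v} τ φ φ' ∧ Half1.{v} τ.symm φ' φ

lemma Dual1.symm {τ : Anti S S'} {φ : PP S} {φ' : PP S'} (h : Dual1.{v} τ φ φ') :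
    Dual1.{v} τ.symm φ' φ := ⟨h.2, h.1⟩

lemma ex_dual1_sol (τ : Anti S S') (φ : PP S) : ∃ φ', Dual1.{v} τ φ φ' ∧
    ∀ (M : Type v) [AddCommGroup M] [Module S' M] (x : M), x ∈ s1 φ' M ↔
      ∃ z : Fin φ.k → M, x = ∑ i, τ.f (φ.a i) • z i ∧ ∀ l, ∑ i, τ.f (φ.b i l) • z i = 0 := by
  obtain ⟨ρ', h1, h2, h3⟩ := ex_dual2.{v} τ (two φ)
  refine ⟨one ρ', ⟨fun M _ _ χ => ?_, fun M _ _ χ => ?_⟩, fun M _ _ x => by
    rw [mem_one, h3]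
    simp only [two, map_zero, zero_smul, Finset.sum_const_zero, true_and]
    exact Iff.rfl⟩
  · rw [mem_one, h1]
    simp [mem_two]
  · rw [← mem_two (y := 0), h2]
    refine ⟨fun h x hx => by simpa using h x 0 (mem_one.1 hx), fun h x y hxy => ?_⟩
    obtain rfl : y = 0 := by
      by_contra hy
      obtain ⟨η, -, hη⟩ := sep (⊥ : AddSubgroup M) (x := y) hy
      exact hη (by simpa using (h2 M 0 (mkc _ η)).1 (mem_two.2 (zero_mem _)) x y hxy)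
    simpa using h x (mem_one.2 hxy)

lemma ex_dual1 (τ : Anti S S') (φ : PP S) : ∃ φ', Dual1.{v} τ φ φ' :=
  (ex_dual1_sol.{v} τ φ).imp fun _ h => h.1

lemma Dual1.congr {τ : Anti S S'} {φ : PP S} {φ' φ'' : PP S'} (h : Dual1.{v} τ φ φ')
    (h' : ∀ (M : Type v) [AddCommGroup M] [Module S' M], s1 φ'' M = s1 φ' M) :
    Dual1.{v} τ φ φ'' :=
  ⟨fun M _ _ χ => by rw [h', h.1], fun M _ _ χ => by rw [h', h.2]⟩

lemma ex_dual1' (τ : Anti S S') (φ' : PP S') : ∃ φ, Dual1.{v} τ φ φ' :=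
  (ex_dual1.{v} τ.symm φ').imp fun _ h => h.symm

/-- `M` and `M'` have dual theories. -/
def Corr (τ : Anti S S') (M M' : Type v) [AddCommGroup M] [Module S M] [AddCommGroup M']
    [Module S' M'] : Prop :=
  ∀ φ φ' ψ ψ', Dual1.{v} τ φ φ' → Dual1.{v} τ ψ ψ' → (s1 φ M ≤ s1 ψ M ↔ s1 ψ' M' ≤ s1 φ' M')

section

variable {τ : Anti S S'} {M N M' N' : Type v} [AddCommGroup M] [Module S M] [AddCommGroup N]
  [Module S N] [AddCommGroup M'] [Module S' M'] [AddCommGroup N'] [Module S' N']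

lemma Corr.symm (h : Corr τ M M') : Corr τ.symm M' M := fun _ _ _ _ h1 h2 =>
  (h _ _ _ _ h2.symm h1.symm).symm

lemma Corr.left (h : Corr τ M M') (hs : Same S N M) : Corr τ N M' := fun _ _ _ _ h1 h2 =>
  (hs _ _).trans (h _ _ _ _ h1 h2)

lemma Corr.right (h : Corr τ M M') (hs : Same S' M' N') : Corr τ M N' := fun _ _ _ _ h1 h2 =>
  (h _ _ _ _ h1 h2).trans (hs _ _)

lemma Corr.same (h : Corr τ M M') (h' : Corr τ N M') : Same S M N := fun φ ψ => by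
  obtain ⟨φ', h1⟩ := ex_dual1.{v} τ φ
  obtain ⟨ψ', h2⟩ := ex_dual1.{v} τ ψ
  exact (h _ _ _ _ h1 h2).trans (h' _ _ _ _ h1 h2).symm

lemma corr_ch : Corr τ M (Ch τ M) := by
  intro φ φ' ψ ψ' h1 h2
  refine ⟨fun h χ hχ => (h1.1 M χ).2 fun x hx => (h2.1 M χ).1 hχ x (h hx), fun h x hx => ?_⟩
  by_contra hx'
  obtain ⟨χ, h3, h4⟩ := sep _ hx'
  exact h4 ((h1.1 M (mkc τ χ)).1 (h ((h2.1 M _).2 h3)) x hx)

lemma same_pi : Same S M (ℕ → M) := fun _ _ =>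
  ⟨fun h _ hu => pi_s1.2 fun i => h (pi_s1.1 hu i),
    fun h _ hx => pi_s1.1 (h (pi_s1.2 fun _ : ℕ => hx)) 0⟩

lemma Corr.minPair (h : Corr τ M M') {φ' ψ' : PP S'} (hm : MinPair M' φ' ψ') :
    ∃ φ ψ : PP S, MinPair M φ ψ := by
  obtain ⟨φ, h1⟩ := ex_dual1'.{v} τ φ'
  obtain ⟨ψ, h2⟩ := ex_dual1'.{v} τ ψ'
  refine ⟨ψ, φ, (h _ _ _ _ h1 h2).2 hm.1, mt (h _ _ _ _ h2 h1).1 hm.2.1, fun χ h3 h4 => ?_⟩
  obtain ⟨χ', h5⟩ := ex_dual1.{v} τ χ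
  exact ((hm.2.2 χ' ((h _ _ _ _ h5 h2).1 h4) ((h _ _ _ _ h1 h5).1 h3)).imp
    (h _ _ _ _ h2 h5).2 (h _ _ _ _ h5 h1).2).symm

lemma Meet.pi (h : Meet S M) : Meet S (ℕ → M) := by
  rintro _ _ _ _ ⟨φ1, rfl⟩ ⟨ψ1, rfl⟩ ⟨φ2, rfl⟩ ⟨ψ2, rfl⟩ h1 h2
  obtain ⟨_, ⟨ρ, rfl⟩, h3, h4, h5, h6, h7⟩ := h _ _ _ _ ⟨φ1, rfl⟩ ⟨ψ1, rfl⟩ ⟨φ2, rfl⟩ ⟨ψ2, rfl⟩
    (mt (same_pi _ _).1 h1) (mt (same_pi _ _).1 h2)
  refine ⟨_, ⟨ρ, rfl⟩, fun x hx => ?_, fun x hx => ?_, fun x hx => ?_, fun x hx => ?_,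
    fun hle => h7 fun x hx => ?_⟩
  · obtain ⟨y, hy⟩ := mem_pr1.1 hx
    exact pi_s1.2 fun i => h3 (mem_pr1.2 ⟨_, pi_s2.1 hy i⟩)
  · exact pi_s2.2 fun i => h4 ⟨pi_s1.1 hx.1 i, pi_s1.1 hx.2 i⟩
  · obtain ⟨y, hy⟩ := mem_pr2.1 hx
    exact pi_s1.2 fun i => h5 (mem_pr2.2 ⟨_, pi_s2.1 hy i⟩)
  · exact pi_s2.2 fun i => h6 ⟨pi_s1.1 hx.1 i, pi_s1.1 hx.2 i⟩
  · obtain ⟨y, hy⟩ := mem_pr1.1 hx
    exact pi_s2.1 (mem_in1.1 (hle (mem_pr1.2 ⟨fun _ => y, pi_s2.2 fun _ : ℕ => hy⟩))) 0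

lemma Meet.ch (h : Meet S M) : Meet S' (Ch τ M) := by
  rintro _ _ _ _ ⟨φ1', rfl⟩ ⟨ψ1', rfl⟩ ⟨φ2', rfl⟩ ⟨ψ2', rfl⟩ h1 h2
  obtain ⟨φ1, d1⟩ := ex_dual1'.{v} τ φ1'
  obtain ⟨ψ1, e1⟩ := ex_dual1'.{v} τ ψ1'
  obtain ⟨φ2, d2⟩ := ex_dual1'.{v} τ φ2'
  obtain ⟨ψ2, e2⟩ := ex_dual1'.{v} τ ψ2'
  obtain ⟨_, ⟨ρ, rfl⟩, h3, h4, h5, h6, h7⟩ := h (s1 φ1 M ⊔ s1 ψ1 M) _ (s1 φ2 M ⊔ s1 ψ2 M) _
    (D1.sup ⟨φ1, rfl⟩ ⟨ψ1, rfl⟩) ⟨φ1, rfl⟩ (D1.sup ⟨φ2, rfl⟩ ⟨ψ2, rfl⟩) ⟨φ2, rfl⟩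
    (fun hle => h1 ((corr_ch _ _ _ _ e1 d1).1 (le_sup_right.trans hle)))
    (fun hle => h2 ((corr_ch _ _ _ _ e2 d2).1 (le_sup_right.trans hle)))
  obtain ⟨ρ', hρ, -⟩ := ex_dual2.{v} τ ρ
  have hk : ∀ {φ ψ φ' ψ'}, Dual1.{v} τ φ φ' → Dual1.{v} τ ψ ψ' → ∀ χ : Ch τ M,
      χ ∈ s1 φ' (Ch τ M) ⊓ s1 ψ' (Ch τ M) → ∀ x ∈ s1 φ M ⊔ s1 ψ M, ap χ x = 0 := by
    intro φ ψ φ' ψ' d e χ hχ x hx
    obtain ⟨y, hy, z, hz, rfl⟩ := AddSubgroup.mem_sup.1 hx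
    rw [map_add, (d.1 M χ).1 hχ.1 y hy, (e.1 M χ).1 hχ.2 z hz, add_zero]
  refine ⟨_, ⟨ρ', rfl⟩, fun χ hχ => ?_, fun χ hχ => ?_, fun χ hχ => ?_, fun χ hχ => ?_,
    fun hle => h7 fun x hx => ?_⟩
  · obtain ⟨η, hη⟩ := mem_pr1.1 hχ
    exact (d1.1 M χ).2 fun x hx => by
      simpa using (hρ M χ η).1 hη x 0 (h4 ⟨AddSubgroup.mem_sup_left hx, hx⟩)
  · exact (hρ M χ 0).2 fun x y hxy => by simpa using hk d1 e1 χ hχ x (h3 (mem_pr1.2 ⟨y, hxy⟩))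
  · obtain ⟨η, hη⟩ := mem_pr2.1 hχ
    exact (d2.1 M χ).2 fun x hx => by
      simpa using (hρ M η χ).1 hη 0 x (h6 ⟨AddSubgroup.mem_sup_left hx, hx⟩)
  · exact (hρ M 0 χ).2 fun x y hxy => by simpa using hk d2 e2 χ hχ y (h5 (mem_pr2.2 ⟨x, hxy⟩))
  · by_contra hx'
    obtain ⟨χ, k1, k2⟩ := sep _ hx'
    obtain ⟨η, hη⟩ := fac ((AddMonoidHom.snd M M).comp (s2 ρ M).subtype)
      (-χ.comp ((AddMonoidHom.fst M M).comp (s2 ρ M).subtype)) (by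
        rintro ⟨⟨a, b⟩, hab⟩ (rfl : b = 0)
        simpa using k1 a hab)
    have k3 := hle (mem_pr1.2 ⟨mkc τ η, (hρ M (mkc τ χ) _).2 fun a b hab => by
      have k4 : η b = -χ a := hη ⟨(a, b), hab⟩
      simp [k4]⟩)
    obtain ⟨y, hy⟩ := mem_pr1.1 hx
    exact k2 (by simpa using (hρ M _ _).1 k3 x y hy)

lemma corr_big : Corr τ M (ℕ → Ch τ (ℕ → M)) := (corr_ch.left same_pi).right same_pi

lemma realise (φ' ψ' : ℕ → PP S')
    (h1 : ∀ n, s1 (φ' (n + 1)) (ℕ → Ch τ (ℕ → M)) ≤ s1 (φ' n) (ℕ → Ch τ (ℕ → M)))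
    (h2 : ∀ m n, ¬ s1 (φ' m) (ℕ → Ch τ (ℕ → M)) ≤ s1 (ψ' n) (ℕ → Ch τ (ℕ → M))) :
    ∃ a : ℕ → Ch τ (ℕ → M), ∀ n, a ∈ s1 (φ' n) _ ∧ a ∉ s1 (ψ' n) _ := by
  choose φ d using fun n => ex_dual1'.{v} τ (φ' n)
  choose ψ e using fun n => ex_dual1'.{v} τ (ψ' n)
  have h3 : Monotone fun n => s1 (φ n) (ℕ → M) := monotone_nat_of_le_succ fun n =>
    (same_pi _ _).1 ((corr_big _ _ _ _ (d n) (d (n + 1))).2 (h1 n))
  choose u hu hu' using fun n m =>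
    SetLike.not_le_iff_exists.1 (mt (corr_big _ _ _ _ (e n) (d m)).1 (h2 m n))
  choose χ k1 k2 using fun n => sep (⨆ m, s1 (φ m) (ℕ → M)) (x := u n) fun h => by
    obtain ⟨m, hm⟩ := (AddSubgroup.mem_iSup_of_directed h3.directed_le).1 h
    exact hu' n m (pi_s1.1 hm m)
  refine ⟨fun n => mkc τ (χ n), fun n => ⟨pi_s1.2 fun i => ((d n).1 _ _).2 fun x hx =>
    k1 i x (AddSubgroup.mem_iSup_of_mem n hx), fun h => k2 n ?_⟩⟩
  exact ((e n).1 _ _).1 (pi_s1.1 h n) _ (pi_s1.2 (hu n))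

end

end Pool.Agent.Lib.MP_cfafa5_al.Ctb
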