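import Mathlib
import Pool.Agent.Lib.MP_cfafa5_al.Ctb.Hull

/-!
A tree of nested pp pairs over a countable ring and the points it produces.
-/

set_option autoImplicit false

universe v

namespace Pool.Agent.Lib.MP_cfafa5_al.Ctb

open Pool.Agent.Lib.MP_cfafa5_al

section tree

variable {Q : Type*} [Preorder Q]

lemma refine_fin {ι K : Type*} (E : K → Q → Q → Prop)
    (hE : ∀ k p q, ∃ p' q', p' ≤ p ∧ q' ≤ q ∧ E k p' q') (s : Finset (ι × ι × K)) (f : ι → Q) :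
    ∃ f' : ι → Q, (∀ i, f' i ≤ f i) ∧
      ∀ t ∈ s, t.1 ≠ t.2.1 → ∃ p' q', E t.2.2 p' q' ∧ f' t.1 ≤ p' ∧ f' t.2.1 ≤ q' := by
  classical
  induction s using Finset.induction_on with
  | empty => exact ⟨f, fun _ => le_rfl, by simp⟩
  | insert t s _ ih =>
    obtain ⟨f', h1, h2⟩ := ih
    obtain ⟨p', q', h3, h4, h5⟩ := hE t.2.2 (f' t.1) (f' t.2.1)
    have h6 : ∀ i, (if i = t.1 then p' else if i = t.2.1 then q' else f' i) ≤ f' i := fun i => by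
      split_ifs with h h'
      · exact h ▸ h3
      · exact h' ▸ h4
      · exact le_rfl
    refine ⟨fun i => if i = t.1 then p' else if i = t.2.1 then q' else f' i,
      fun i => (h6 i).trans (h1 i), fun u hu hne => ?_⟩
    rcases Finset.mem_insert.1 hu with rfl | hu
    · exact ⟨p', q', h5, by simp, by simp [hne.symm]⟩
    · obtain ⟨p, q, h7, h8, h9⟩ := h2 u hu hne
      exact ⟨p, q, h7, (h6 _).trans h8, (h6 _).trans h9⟩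

lemma tree [Nonempty Q] {K : Type*} [Countable K] [Nonempty K] (E : K → Q → Q → Prop)
    (hE : ∀ k p q, ∃ p' q', p' ≤ p ∧ q' ≤ q ∧ E k p' q') :
    ∃ f : (ℕ → Bool) → ℕ → Q, (∀ s n, f s (n + 1) ≤ f s n) ∧
      ∀ s t, s ≠ t → ∀ k, ∃ n p' q', E k p' q' ∧ f s n ≤ p' ∧ f t n ≤ q' := by
  classical
  obtain ⟨e, he⟩ := exists_surjective_nat K
  choose step h1 h2 using fun (n : ℕ) (f : (Fin n → Bool) → Q) =>
    refine_fin (ι := Fin (n + 1) → Bool) E hE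
      (Finset.univ ×ˢ Finset.univ ×ˢ (Finset.range (n + 1)).image e) fun s => f (Fin.init s)
  let F : ∀ n, (Fin n → Bool) → Q := fun n =>
    Nat.rec (motive := fun n => (Fin n → Bool) → Q) (fun _ => Classical.arbitrary Q) step n
  refine ⟨fun s n => F n fun i => s i, fun s n => h1 n (F n) fun i => s i, fun s t hst k => ?_⟩
  obtain ⟨i, hi⟩ := Function.ne_iff.1 hst
  obtain ⟨j, rfl⟩ := he k
  exact ⟨max i j + 1, h2 (max i j) (F _) ⟨fun i => s i, fun i => t i, e j⟩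
    (by simpa using ⟨j, by omega, rfl⟩) fun h => hi (congrFun h ⟨i, by omega⟩)⟩

end tree

variable {S : Type} [Ring S]

/-- A pp pair open on `P`. -/
structure Pr (S : Type) [Ring S] (P : Type v) [AddCommGroup P] [Module S P] where
  U : AddSubgroup P
  V : AddSubgroup P
  hU : D1 S U
  hV : D1 S V
  h : ¬ U ≤ V

variable {P : Type v} [AddCommGroup P] [Module S P]

instance : Preorder (Pr S P) where
  le p q := p.U ≤ q.U ∧ p.U ⊓ q.V ≤ p.V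
  le_refl _ := ⟨le_rfl, inf_le_right⟩
  le_trans _ _ _ h h' := ⟨h.1.trans h'.1, fun _ hx => h.2 ⟨hx.1, h'.2 ⟨h.1 hx.1, hx.2⟩⟩⟩

def Sat (a : P) (p : Pr S P) : Prop := a ∈ p.U ∧ a ∉ p.V

lemma Sat.mono {a : P} {p q : Pr S P} (h : Sat a p) (hpq : p ≤ q) : Sat a q :=
  ⟨hpq.1 h.1, fun hv => h.2 (hpq.2 ⟨h.1, hv⟩)⟩

lemma decide_pr (p : Pr S P) {X Y : AddSubgroup P} (hX : D1 S X) (hY : D1 S Y) :
    ∃ p' ≤ p, p'.U ≤ X ∨ p'.U ≤ Y ∨ (X ⊓ p'.U ≤ p'.V ∧ Y ⊓ p'.U ≤ p'.V) := by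
  by_cases h1 : X ⊓ p.U ≤ p.V
  · by_cases h2 : Y ⊓ p.U ≤ p.V
    · exact ⟨p, le_rfl, Or.inr (Or.inr ⟨h1, h2⟩)⟩
    · exact ⟨⟨_, _, hY.inf p.hU, p.hV, h2⟩, ⟨inf_le_right, inf_le_right⟩,
        Or.inr (Or.inl inf_le_left)⟩
  · exact ⟨⟨_, _, hX.inf p.hU, p.hV, h1⟩, ⟨inf_le_right, inf_le_right⟩, Or.inl inf_le_left⟩

lemma kill (hd : ¬ ∃ φ ψ : PP S, MinPair P φ ψ) (p q : Pr S P) {R : AddSubgroup (P × P)}
    (hR : D2 S R) : ∃ p' q', p' ≤ p ∧ q' ≤ q ∧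
      ∀ a b, Sat a p' → Sat b q' → (a, b) ∈ R → (a, (0 : P)) ∈ R := by
  have hR' : D2 S (R ⊓ p.U.prod q.U) := hR.inf (D2.prod p.hU q.hU)
  set R' := R ⊓ p.U.prod q.U with hdef
  by_cases h1 : in2 R' ≤ q.V
  swap
  · refine ⟨p, ⟨_, _, hR'.in2, q.hV, h1⟩, le_rfl, ⟨fun x hx => hx.2.2, inf_le_right⟩,
      fun a b _ hb hab => ?_⟩
    simpa using sub_mem hab hb.1.1
  have hu : D1 S (pr1 (R' ⊓ AddSubgroup.prod ⊤ q.V)) := (hR'.inf (D2.prod D1.top q.hV)).pr1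
  by_cases h2 : pr1 (R' ⊓ AddSubgroup.prod ⊤ q.V) ≤ p.V
  swap
  · have h3 : pr1 (R' ⊓ AddSubgroup.prod ⊤ q.V) ≤ p.U := fun x hx =>
      (mem_pr1.1 hx).elim fun y hy => hy.1.2.1
    refine ⟨⟨_, _, hu, p.hV, h2⟩, q, ⟨h3, inf_le_right⟩, le_rfl, fun a b ha hb hab => ?_⟩
    obtain ⟨c, hc⟩ := mem_pr1.1 ha.1
    have h4 : ((0 : P), b - c) ∈ R' := by
      simpa using sub_mem (show (a, b) ∈ R' from ⟨hab, h3 ha.1, hb.1⟩) hc.1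
    exact absurd (by simpa using add_mem (h1 h4) hc.2.2) hb.2
  by_cases h3 : pr1 R' ≤ p.V
  · exact ⟨p, q, le_rfl, le_rfl, fun a b ha hb hab =>
      absurd (h3 (mem_pr1.2 ⟨b, hab, ha.1, hb.1⟩)) ha.2⟩
  obtain ⟨φ, hφ⟩ := hR'.pr1
  obtain ⟨ψ, hψ⟩ := hR'.pr1.inf p.hV
  obtain ⟨χ, k1, k2, k3, k4⟩ : ∃ χ : PP S, s1 ψ P ≤ s1 χ P ∧ s1 χ P ≤ s1 φ P ∧
      ¬ s1 χ P ≤ s1 ψ P ∧ ¬ s1 φ P ≤ s1 χ P := by
    by_contra hcon
    refine hd ⟨φ, ψ, by rw [hφ, hψ]; exact inf_le_left,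
      by rw [hφ, hψ]; exact fun h => h3 (h.trans inf_le_right), fun χ k1 k2 => ?_⟩
    by_contra k
    exact hcon ⟨χ, k1, k2, fun h => k (Or.inl h), fun h => k (Or.inr h)⟩
  rw [hφ] at k2 k4
  rw [hψ] at k1 k3
  have hα : pr1 R' ≤ p.U := fun x hx => (mem_pr1.1 hx).elim fun y hy => hy.2.1
  have k5 : ∀ x y, (x, y) ∈ R' → y ∈ q.V → x ∈ s1 χ P := fun x y hxy hy =>
    k1 ⟨mem_pr1.2 ⟨y, hxy⟩, h2 (mem_pr1.2 ⟨y, hxy, trivial, hy⟩)⟩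
  refine ⟨⟨_, _, ⟨χ, rfl⟩, p.hV, fun h => k3 (le_inf k2 h)⟩,
    ⟨_, _, hR'.pr2, (hR'.inf (D2.prod ⟨χ, rfl⟩ D1.top)).pr2, fun h => k4 fun x hx => ?_⟩,
    ⟨k2.trans hα, inf_le_right⟩, ⟨fun y hy => (mem_pr2.1 hy).elim fun x hx => hx.2.2,
      fun y hy => ?_⟩, fun a b ha hb hab => hb.2.elim ?_⟩
  · obtain ⟨y, hy⟩ := mem_pr1.1 hx
    obtain ⟨w, hw⟩ := mem_pr2.1 (h (mem_pr2.2 ⟨x, hy⟩))
    have k6 := k5 (x - w) 0 (by simpa using sub_mem hy hw.1) (zero_mem _)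
    simpa using add_mem k6 hw.2.1
  · obtain ⟨x, hx⟩ := mem_pr2.1 hy.1
    exact mem_pr2.2 ⟨x, hx, k5 x y hx hy.2, trivial⟩
  · exact mem_pr2.2 ⟨a, ⟨hab, hα (k2 ha.1), (mem_pr2.1 hb.1).elim fun x hx => hx.2.2⟩,
      ha.1, trivial⟩

/-- Nested sequences of open pairs are realised. -/
def Realises (S : Type) [Ring S] (P : Type v) [AddCommGroup P] [Module S P] : Prop :=
  ∀ φ ψ : ℕ → PP S, (∀ n, s1 (φ (n + 1)) P ≤ s1 (φ n) P) → (∀ m n, ¬ s1 (φ m) P ≤ s1 (ψ n) P) →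
    ∃ a : P, ∀ n, a ∈ s1 (φ n) P ∧ a ∉ s1 (ψ n) P

lemma branches [Countable S] [Nontrivial P] (hM : Meet S P) (hR : Realises S P) :
    ∃ a : (ℕ → Bool) → P,
      (∀ s (χ χ' : PP S), a s ∉ s1 χ P → a s ∉ s1 χ' P →
        ∃ φ : PP S, a s ∈ s1 φ P ∧ a s ∉ s1 χ P ⊓ s1 φ P ⊔ s1 χ' P ⊓ s1 φ P) ∧
      (∀ s (φ ψ : PP S), ¬ s1 φ P ≤ s1 ψ P → ∃ ρ : PP2 S, a s ∈ pr1 (s2 ρ P) ∧
        a s ∉ in1 (s2 ρ P) ∧ pr2 (s2 ρ P) ≤ s1 φ P ∧ s1 φ P ⊓ s1 ψ P ≤ in2 (s2 ρ P)) ∧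
      ((¬ ∃ φ ψ : PP S, MinPair P φ ψ) → ∀ s t, s ≠ t → ∀ (ρ : PP2 S) (b : P),
        (∀ θ : PP S, b ∈ s1 θ P ↔ a t ∈ s1 θ P) → (a s, b) ∈ s2 ρ P → (a s, (0 : P)) ∈ s2 ρ P) := by
  have : Nonempty (Pr S P) := ⟨⊤, ⊥, D1.top, D1.bot, by simp⟩
  have : Nonempty (PP S) := ⟨topF S⟩
  obtain ⟨f, hf, hE⟩ := tree (Q := Pr S P) (K := (PP S × PP S) ⊕ (PP S × PP S) ⊕ PP2 S)
    (Sum.elim (fun c p _ => p.U ≤ s1 c.1 P ∨ p.U ≤ s1 c.2 P ∨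
        (s1 c.1 P ⊓ p.U ≤ p.V ∧ s1 c.2 P ⊓ p.U ≤ p.V))
      (Sum.elim (fun c p _ => ¬ s1 c.1 P ≤ s1 c.2 P → ∃ ρ : PP2 S, p.U = pr1 (s2 ρ P) ∧
          p.V = in1 (s2 ρ P) ∧ pr2 (s2 ρ P) ≤ s1 c.1 P ∧ s1 c.1 P ⊓ s1 c.2 P ≤ in2 (s2 ρ P))
        fun ρ p q => (¬ ∃ φ ψ : PP S, MinPair P φ ψ) →
          ∀ a b, Sat a p → Sat b q → (a, b) ∈ s2 ρ P → (a, (0 : P)) ∈ s2 ρ P)) (by
      rintro (c | c | ρ) p q
      · obtain ⟨p', h1, h2⟩ := decide_pr p ⟨c.1, rfl⟩ ⟨c.2, rfl⟩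
        exact ⟨p', q, h1, le_rfl, h2⟩
      · by_cases h : s1 c.1 P ≤ s1 c.2 P
        · exact ⟨p, q, le_rfl, le_rfl, fun h' => absurd h h'⟩
        obtain ⟨_, ⟨ρ, rfl⟩, h1, h2, h3, h4, h5⟩ := hM _ _ _ _ p.hU p.hV ⟨c.1, rfl⟩ ⟨c.2, rfl⟩ p.h h
        exact ⟨⟨_, _, D2.pr1 ⟨ρ, rfl⟩, D2.in1 ⟨ρ, rfl⟩, h5⟩, q,
          ⟨h1, fun x hx => h2 ⟨h1 hx.1, hx.2⟩⟩, le_rfl, fun _ => ⟨ρ, rfl, rfl, h3, h4⟩⟩
      · by_cases hd : ∃ φ ψ : PP S, MinPair P φ ψ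
        · exact ⟨p, q, le_rfl, le_rfl, fun h' => absurd hd h'⟩
        obtain ⟨p', q', h1, h2, h3⟩ := kill hd p q ⟨ρ, rfl⟩
        exact ⟨p', q', h1, h2, fun _ => h3⟩)
  have h1 : ∀ s, ∃ a, ∀ n, Sat a (f s n) := fun s => by
    choose φ hφ using fun n => (f s n).hU
    choose ψ hψ using fun n => (f s n).hV
    have h2 := antitone_nat_of_succ_le (hf s)
    obtain ⟨a, ha⟩ := hR φ ψ (fun n => by rw [hφ, hφ]; exact (hf s n).1) fun m n h => by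
      rw [hφ, hψ] at h
      rcases le_total m n with h3 | h3
      · exact (f s n).h ((h2 h3).1.trans h)
      · exact (f s m).h fun x hx => (h2 h3).2 ⟨hx, h hx⟩
    exact ⟨a, fun n => by simpa only [hφ, hψ, Sat] using ha n⟩
  choose a ha using h1
  have h2 : ∀ s : ℕ → Bool, s ≠ fun i => !s i := fun s h => by simpa using congrFun h 0
  refine ⟨a, fun s χ χ' h3 h4 => ?_, fun s φ ψ h => ?_, fun hd s t hst ρ b hb hab => ?_⟩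
  · obtain ⟨n, p, q, h5, h6, -⟩ := hE s _ (h2 s) (.inl (χ, χ'))
    have h7 := (ha s n).mono h6
    obtain ⟨φ, hφ⟩ := p.hU
    rcases h5 with h5 | h5 | h5
    · exact absurd (h5 h7.1) h3
    · exact absurd (h5 h7.1) h4
    · exact ⟨φ, hφ ▸ h7.1, fun h => h7.2 (sup_le h5.1 h5.2 (hφ ▸ h))⟩
  · obtain ⟨n, p, q, h5, h6, -⟩ := hE s _ (h2 s) (.inr (.inl (φ, ψ)))
    have h7 := (ha s n).mono h6
    obtain ⟨ρ, k1, k2, k3, k4⟩ := h5 h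
    exact ⟨ρ, k1 ▸ h7.1, k2 ▸ h7.2, k3, k4⟩
  · obtain ⟨n, p, q, h5, h6, h7⟩ := hE s t hst (.inr (.inr ρ))
    have h8 := (ha t n).mono h7
    obtain ⟨φ, hφ⟩ := q.hU
    obtain ⟨ψ, hψ⟩ := q.hV
    exact h5 hd _ _ ((ha s n).mono h6)
      ⟨hφ ▸ (hb φ).2 (hφ ▸ h8.1), fun h => h8.2 (hψ ▸ (hb ψ).1 (hψ ▸ h))⟩ hab

lemma exists_points [Countable S] [Nontrivial P] (hP : HasLim S P) (hM : Meet S P)
    (hR : Realises S P) : ∃ N : (ℕ → Bool) → PInj.{v} S, (∀ s, Same S (N s).1 P) ∧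
      ((¬ ∃ φ ψ : PP S, MinPair P φ ψ) → ∀ s t, Nonempty ((N s).1 ≃ₗ[S] (N t).1) → s = t) := by
  obtain ⟨a, h1, h2, h3⟩ := branches hM hR
  choose e he hea hee using fun s => hull hP (a s) (botF S)
  simp only [mem_botF, sub_eq_zero] at hea hee
  have ha : ∀ s, a s ≠ 0 := fun s h => by
    obtain ⟨ρ, -, k, -⟩ := h2 s (topF S) (botF S) fun hle => by
      obtain ⟨x, hx⟩ := exists_ne (0 : P)
      exact hx (mem_botF.1 (hle (mem_topF x)))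
    exact k (h ▸ zero_mem _)
  have hfix : ∀ s (x : LinearMap.range (e s)), e s x = x := by
    rintro s ⟨_, x, rfl⟩
    exact he s x
  have hret : ∀ s (x : LinearMap.range (e s)),
      (e s).rangeRestrict ((LinearMap.range (e s)).subtype x) = x :=
    fun s x => Subtype.ext (hfix s x)
  have hm : ∀ s (φ : PP S) (x : LinearMap.range (e s)), x ∈ s1 φ _ ↔ x.1 ∈ s1 φ P := fun s φ x =>
    ⟨map_s1 (LinearMap.range (e s)).subtype, fun h => hret s x ▸ map_s1 (e s).rangeRestrict h⟩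
  have hind : ∀ s, IsIndecomposable S (LinearMap.range (e s)) := fun s => by
    refine ⟨⟨⟨⟨a s, a s, hea s⟩, 0, fun h => ha s (congrArg Subtype.val h)⟩⟩, fun A B hAB => ?_⟩
    have key : ∀ {A B : Submodule S (LinearMap.range (e s))} (hAB : IsCompl A B), B ≠ ⊥ →
        ∃ π : P →ₗ[S] P, (∀ x : LinearMap.range (e s), π x = (A.projection B hAB x).1) ∧
          ∃ χ : PP S, π (a s) ∈ s1 χ P ∧ a s ∉ s1 χ P := by
      intro A B hAB hB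
      let π : P →ₗ[S] P :=
        (LinearMap.range (e s)).subtype ∘ₗ A.projection B hAB ∘ₗ (e s).rangeRestrict
      have hπ : ∀ x : LinearMap.range (e s), π x = (A.projection B hAB x).1 := fun x =>
        congrArg (fun y => (A.projection B hAB y).1) (hret s x)
      refine ⟨π, hπ, ?_⟩
      by_contra hcon
      obtain ⟨g, hg⟩ := move1_eq hP (π (a s)) (a s) fun θ hθ => by
        by_contra k
        exact hcon ⟨θ, hθ, k⟩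
      obtain ⟨g', hg'⟩ := hee s (g ∘ₗ π) hg
      refine hB (eq_bot_iff.2 fun x hx => Subtype.ext ?_)
      have k := hg' x
      rw [hfix, LinearMap.comp_apply, hπ, Submodule.projection_apply_of_mem_right hAB hx] at k
      simpa using k.symm
    by_contra hcon
    obtain ⟨π, hπ, χ, k1, k2⟩ := key hAB fun h => hcon (Or.inr h)
    obtain ⟨π', hπ', χ', k3, k4⟩ := key hAB.symm fun h => hcon (Or.inl h)
    obtain ⟨φ, k5, k6⟩ := h1 s χ χ' k2 k4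
    refine k6 (AddSubgroup.mem_sup.2 ⟨_, ⟨k1, map_s1 π k5⟩, _, ⟨k3, map_s1 π' k5⟩, ?_⟩)
    rw [hπ ⟨a s, a s, hea s⟩, hπ' ⟨a s, a s, hea s⟩]
    exact congrArg Subtype.val (Submodule.projection_add_projection_eq_self hAB _)
  refine ⟨fun s => ⟨ModuleCat.of S (LinearMap.range (e s)), hind s,
    pure_of_hasLim (hP.retract _ _ (hret s))⟩, fun s φ ψ => ⟨fun h => ?_, fun h x hx =>
      (hm s ψ x).2 (h ((hm s φ x).1 hx))⟩, fun hd s t ⟨j⟩ => ?_⟩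
  · by_contra hle
    obtain ⟨ρ, k1, k2, k3, k4⟩ := h2 s φ ψ hle
    obtain ⟨b, hb⟩ := mem_pr1.1 k1
    have k5 : (a s, e s b) ∈ s2 ρ P := by simpa only [hea] using map_s2 (e s) hb
    have k6 := k3 (mem_pr2.2 ⟨_, k5⟩)
    have k7 := (hm s ψ ⟨_, b, rfl⟩).1 (h ((hm s φ ⟨_, b, rfl⟩).2 k6))
    exact k2 (mem_in1.2 (by simpa using sub_mem k5 (mem_in2.1 (k4 ⟨k6, k7⟩))))
  · by_contra hst
    let j' : LinearMap.range (e s) ≃ₗ[S] LinearMap.range (e t) := j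
    let b := j'.symm ⟨a t, a t, hea t⟩
    have hb : ∀ θ : PP S, b.1 ∈ s1 θ P ↔ a t ∈ s1 θ P := fun θ => by
      rw [← hm, ← hm t θ ⟨a t, a t, hea t⟩]
      exact ⟨fun h => by simpa [b] using map_s1 j'.toLinearMap h, map_s1 j'.symm.toLinearMap⟩
    obtain ⟨g, k1, k2⟩ := move2_eq hP (a s) b.1 (a s) 0 fun ρ => h3 hd s t hst ρ b.1 hb
    obtain ⟨g', hg'⟩ := hee s g k1
    have k3 := hg' b
    rw [hfix, k2, map_zero] at k3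
    exact ha t (mem_botF.1 ((hb (botF S)).1 (mem_botF.2 k3.symm)))

end Pool.Agent.Lib.MP_cfafa5_al.Ctb
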