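import Mathlib
import Pool.Agent.Lib.MP_cfafa5_al.Ctb.Dual
import Pool.Agent.Lib.MP_cfafa5_al.Ctb.Tree

/-!
Over a countable ring the right and left Ziegler spectra are homeomorphic.
-/

set_option autoImplicit false

universe v

namespace Pool.Agent.Lib.MP_cfafa5_al.Ctb

open Pool.Agent.Lib.MP_cfafa5_al

variable {S S' : Type} [Ring S] [Ring S']

lemma mk_eq {P Q : PInj.{v} S} :
    (Quot.mk _ P : Zg.{v} S) = Quot.mk _ Q ↔ Nonempty (P.1 ≃ₗ[S] Q.1) :=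
  Quot.eq.trans (Equivalence.eqvGen_iff ⟨fun _ => ⟨LinearEquiv.refl _ _⟩, fun ⟨e⟩ => ⟨e.symm⟩,
    fun ⟨e⟩ ⟨f⟩ => ⟨e.trans f⟩⟩)

lemma same_of_equiv {M N : Type v} [AddCommGroup M] [Module S M] [AddCommGroup N] [Module S N]
    (e : M ≃ₗ[S] N) : Same S M N := fun _ _ =>
  ⟨fun h x hx => by simpa using map_s1 e.toLinearMap (h (map_s1 e.symm.toLinearMap hx)),
    fun h x hx => by simpa using map_s1 e.symm.toLinearMap (h (map_s1 e.toLinearMap hx))⟩

/-- A module representing a point. -/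
noncomputable def rep (p : Zg.{v} S) : PInj.{v} S := Quot.out p

lemma mk_rep (p : Zg.{v} S) : Quot.mk _ (rep p) = p := Quot.out_eq p

lemma same_rep (N : PInj.{v} S) : Same S N.1 (rep (Quot.mk _ N)).1 :=
  (mk_eq.1 (mk_rep (Quot.mk _ N)).symm).elim same_of_equiv

lemma eq_of_equiv {p q : Zg.{v} S} (h : Nonempty ((rep p).1 ≃ₗ[S] (rep q).1)) : p = q := by
  rw [← mk_rep p, ← mk_rep q]
  exact mk_eq.2 h

lemma mem_basic {φ ψ : PP S} {p : Zg.{v} S} :
    p ∈ basic φ ψ ↔ ¬ s1 φ (rep p).1 ≤ s1 ψ (rep p).1 := by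
  have h : ∀ N : PInj.{v} S, φ.ev N.1 ⊆ ψ.ev N.1 ↔ s1 φ N.1 ≤ s1 ψ N.1 := fun N =>
    ⟨fun h x hx => mem_s1_ev.2 (h (mem_s1_ev.1 hx)), fun h x hx => mem_s1_ev.1 (h (mem_s1_ev.2 hx))⟩
  constructor
  · rintro ⟨N, rfl, hN⟩
    rwa [← same_rep N, ← h]
  · exact fun hp => ⟨rep p, mk_rep p, mt (h _).1 hp⟩

lemma exists_code [Countable S] : ∃ c : Zg.{v} S → ℕ → Bool, Function.Injective c := by
  classical
  have : Nonempty (PP S) := ⟨topF S⟩
  obtain ⟨e, he⟩ := exists_surjective_nat (PP S)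
  have h1 : ∀ p : Zg.{v} S, ∃ x : (rep p).1, x ≠ 0 := fun p =>
    have := (rep p).2.1.1
    exists_ne 0
  choose x hx using h1
  refine ⟨fun p n => decide (x p ∈ s1 (e n) _), fun p q h => eq_of_equiv
    (equiv_of_type (hasLim_of_pure (rep p).2.2) (rep p).2.1 (hasLim_of_pure (rep q).2.2)
      (rep q).2.1 (hx p) (hx q) fun θ => ?_)⟩
  obtain ⟨n, rfl⟩ := he θ
  exact decide_eq_decide.1 (congrFun h n)

lemma dual_points [Countable S'] (τ : Anti S S') (p0 : Zg.{v} S) :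
    ∃ N : (ℕ → Bool) → Zg.{v} S', (∀ s, Corr τ (rep p0).1 (rep (N s)).1) ∧
      ((∃ φ ψ : PP S, MinPair (rep p0).1 φ ψ) ∨ Function.Injective N) := by
  have := (rep p0).2.1.1
  have : Nontrivial (Ch τ (ℕ → (rep p0).1)) := by
    obtain ⟨x, hx⟩ := exists_ne (0 : ℕ → (rep p0).1)
    obtain ⟨χ, -, h⟩ := sep (⊥ : AddSubgroup _) (x := x) hx
    exact ⟨mkc τ χ, 0, fun h' => h (congrArg (fun c => ap c x) h')⟩
  obtain ⟨N, h1, h2⟩ := exists_points (S := S') (P := ℕ → Ch τ (ℕ → (rep p0).1)) hasLim_ch.pi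
    (meet_of (hasLim_of_pure (rep p0).2.2) (rep p0).2.1).pi.ch.pi realise
  refine ⟨fun s => Quot.mk _ (N s), fun s => (corr_big.right (h1 s).symm).right (same_rep _), ?_⟩
  by_cases hd : ∃ φ ψ : PP S', MinPair (ℕ → Ch τ (ℕ → (rep p0).1)) φ ψ
  · obtain ⟨φ', ψ', hm⟩ := hd
    exact Or.inl (corr_big.minPair hm)
  · exact Or.inr fun s t h => h2 hd _ _ (mk_eq.1 h)

lemma eq_of_min {p0 p q : Zg.{v} S} {φ ψ : PP S} (hm : MinPair (rep p0).1 φ ψ)
    (hp : Same S (rep p).1 (rep p0).1) (hq : Same S (rep q).1 (rep p0).1) : p = q :=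
  eq_of_equiv (equiv_of_min (hasLim_of_pure (rep p).2.2) (rep p).2.1 (hasLim_of_pure (rep q).2.2)
    (rep q).2.1 (fun φ ψ => (hp φ ψ).trans (hq φ ψ).symm) (hm.same hp.symm))

lemma class_inj [Countable S] [Countable S'] (τ : Anti S S') (p0 : Zg.{v} S) :
    ∃ j : Zg.{v} S → Zg.{v} S', (∀ p, Corr τ (rep p0).1 (rep (j p)).1) ∧
      ∀ p q, Same S (rep p).1 (rep p0).1 → Same S (rep q).1 (rep p0).1 → j p = j q → p = q := by
  obtain ⟨N, h1, ⟨φ, ψ, hm⟩ | h2⟩ := dual_points τ p0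
  · exact ⟨fun _ => N fun _ => true, fun _ => h1 _, fun p q hp hq _ => eq_of_min hm hp hq⟩
  · obtain ⟨c, hc⟩ := exists_code.{v} (S := S)
    exact ⟨fun p => N (c p), fun _ => h1 _, fun p q _ _ h => hc (h2 h)⟩

lemma exists_inj [Countable S] [Countable S'] (τ : Anti S S') :
    ∃ f : Zg.{v} S → Zg.{v} S', Function.Injective f ∧ ∀ p, Corr τ (rep p).1 (rep (f p)).1 := by
  choose j h1 h2 using class_inj.{v} τ
  let s : Setoid (Zg.{v} S) := ⟨fun p q => Same S (rep p).1 (rep q).1, fun _ _ _ => Iff.rfl,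
    Same.symm, fun h h' φ ψ => (h φ ψ).trans (h' φ ψ)⟩
  have h3 : ∀ p, Same S (rep p).1 (rep (Quotient.mk s p).out).1 := fun p =>
    Same.symm (Quotient.mk_out (s := s) p)
  have h4 : ∀ p, Corr τ (rep p).1 (rep (j (Quotient.mk s p).out p)).1 := fun p =>
    (h1 _ p).left (h3 p)
  refine ⟨fun p => j (Quotient.mk s p).out p, fun p q h => ?_, h4⟩
  have h' : j (Quotient.mk s p).out p = j (Quotient.mk s q).out q := h
  have h5 : Quotient.mk s p = Quotient.mk s q := Quotient.sound ((h4 p).same (h' ▸ h4 q))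
  exact h2 _ p q (h3 p) (h5 ▸ h3 q) (by rw [h', h5])

lemma cont (τ : Anti S S') (h : Zg.{v} S → Zg.{v} S')
    (hh : ∀ p, Corr τ (rep p).1 (rep (h p)).1) : Continuous h := by
  refine continuous_generateFrom_iff.2 ?_
  rintro _ ⟨φ', ψ', rfl⟩
  obtain ⟨φ, d⟩ := ex_dual1'.{v} τ φ'
  obtain ⟨ψ, e⟩ := ex_dual1'.{v} τ ψ'
  refine TopologicalSpace.isOpen_generateFrom_of_mem ⟨ψ, φ, Set.ext fun p => ?_⟩
  rw [Set.mem_preimage, mem_basic, mem_basic, hh p _ _ _ _ e d]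

theorem homeo [Countable S] [Countable S'] (τ : Anti S S') :
    ∃ h : Zg.{v} S ≃ₜ Zg.{v} S', ∀ p, Corr τ (rep p).1 (rep (h p)).1 := by
  obtain ⟨f, hf, h1⟩ := exists_inj.{v} τ
  obtain ⟨g, hg, h2⟩ := exists_inj.{v} τ.symm
  obtain ⟨h, hb, h3⟩ := Function.Embedding.schroeder_bernstein_of_rel hf hg
    (fun p q => Corr τ (rep p).1 (rep q).1) h1 fun q => (h2 q).symm
  let e := Equiv.ofBijective h hb
  exact ⟨⟨e, cont τ _ h3, cont τ.symm _ fun q => by
    have h4 := (h3 (e.symm q)).symm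
    rwa [show h (e.symm q) = q from e.apply_symm_apply q] at h4⟩, h3⟩

lemma insep_iff {p q : Zg.{v} S} : Inseparable p q ↔ Same S (rep p).1 (rep q).1 := by
  constructor
  · intro h φ ψ
    rw [← not_iff_not, ← mem_basic, ← mem_basic]
    exact h.mem_open_iff (TopologicalSpace.isOpen_generateFrom_of_mem ⟨φ, ψ, rfl⟩)
  · intro h
    rw [inseparable_def, TopologicalSpace.nhds_generateFrom, TopologicalSpace.nhds_generateFrom]
    refine iInf_congr fun U => iInf_congr_Prop (and_congr_left ?_) fun _ => rfl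
    rintro ⟨φ, ψ, rfl⟩
    rw [mem_basic, mem_basic, h]

theorem class_card [Countable S] [Countable S'] (τ : Anti S S') (q0 : Zg.{v} S') :
    Cardinal.mk {q | Inseparable q q0} = 1 ∨
      Cardinal.mk {q | Inseparable q q0} = Cardinal.continuum := by
  obtain ⟨g, -, hg⟩ := exists_inj.{v} τ.symm
  obtain ⟨N, h1, ⟨φ, ψ, hm⟩ | h2⟩ := dual_points τ (g q0)
  · obtain ⟨φ', ψ', hm'⟩ := (hg q0).minPair hm
    exact Or.inl (Cardinal.eq_one_iff_unique.2 ⟨⟨fun p q => Subtype.ext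
      (eq_of_min hm' (insep_iff.1 p.2) (insep_iff.1 q.2))⟩, ⟨q0, Inseparable.refl q0⟩⟩)
  · obtain ⟨c, hc⟩ := exists_code.{v} (S := S')
    refine Or.inr (le_antisymm ?_ ?_)
    · simpa using Cardinal.lift_mk_le_lift_mk_of_injective
        (f := fun q : {q | Inseparable q q0} => c q.1) (hc.comp Subtype.val_injective)
    · have h3 := Cardinal.lift_mk_le_lift_mk_of_injective
        (f := fun s => (⟨N s, insep_iff.2 ((h1 s).symm.same (hg q0))⟩ : {q | Inseparable q q0}))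
        fun s t h => h2 (congrArg Subtype.val h)
      rw [Cardinal.lift_uzero] at h3
      exact le_of_eq_of_le (by simp) h3

/-- The anti-isomorphism between the opposite ring and the ring. -/
def opAnti (R : Type) [Ring R] : Anti Rᵐᵒᵖ R :=
  ⟨MulOpposite.opAddEquiv.symm.toAddMonoidHom, MulOpposite.opAddEquiv.toAddMonoidHom,
    fun _ => rfl, fun _ => rfl, rfl, rfl, fun _ _ => rfl, fun _ _ => rfl⟩

lemma dual1_dual {R : Type} [Ring R] (φ : PP Rᵐᵒᵖ) : Dual1.{v} (opAnti R) φ φ.dual := by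
  obtain ⟨φ', h1, h2⟩ := ex_dual1_sol.{v} (opAnti R) φ
  refine h1.congr fun M _ _ => AddSubgroup.ext fun x => ?_
  rw [h2, mem_s1]
  show (∃ z : Fin φ.k → M, ∀ i : Fin (φ.m + 1), (Fin.cons 1 fun _ => 0 : Fin (φ.m + 1) → R) i • x +
    ∑ j, (Fin.cons (fun i => (φ.a i).unop) fun j i => (φ.b i j).unop :
      Fin (φ.m + 1) → Fin φ.k → R) i j • z j = 0) ↔ _
  constructor
  · rintro ⟨z, hz⟩
    refine ⟨-z, ?_, fun l => ?_⟩
    · simpa [opAnti, add_eq_zero_iff_eq_neg] using hz 0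
    · simpa [opAnti] using hz (Fin.succ l)
  · rintro ⟨z, h3, h4⟩
    refine ⟨-z, fun i => Fin.cases ?_ (fun l => ?_) i⟩
    · simpa [opAnti, add_neg_eq_zero] using h3
    · simpa [opAnti] using h4 l

theorem main (R : Type) [Ring R] [Countable R] :
    (∃ h : Zg.{v} Rᵐᵒᵖ ≃ₜ Zg.{v} R, ∀ φ ψ : PP Rᵐᵒᵖ, h '' basic φ ψ = basic ψ.dual φ.dual) ∧
      ∀ p : Zg.{v} R, Cardinal.mk {q | Inseparable q p} = 1 ∨
        Cardinal.mk {q | Inseparable q p} = Cardinal.continuum := by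
  have : Countable Rᵐᵒᵖ := MulOpposite.unop_injective.countable
  obtain ⟨h, hh⟩ := homeo.{v} (opAnti R)
  refine ⟨⟨h, fun φ ψ => Set.ext fun q => ?_⟩, class_card (opAnti R)⟩
  obtain ⟨p, rfl⟩ := h.surjective q
  rw [h.injective.mem_set_image, mem_basic, mem_basic,
    hh p _ _ _ _ (dual1_dual φ) (dual1_dual ψ)]

end Pool.Agent.Lib.MP_cfafa5_al.Ctb
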